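import Mathlib
import Pool.Agent.MP_e85a6b_ag.Defs

-- part MP_e85a6b_ag.Convex
section

/-!
Discrete concave functions on exponent vectors, Gordan's lemma and a SAGBI argument.
-/

set_option autoImplicit false

namespace Pool.Agent.MP_e85a6b_ag

open Finsupp Filter

variable {σ : Type*}

/-- superadditive, homogeneous and `1`-Lipschitz functions on exponent vectors -/
structure Nice (v : (σ →₀ ℕ) → ℕ) : Prop where
  add : ∀ a b, v a + v b ≤ v (a + b)
  hom : ∀ (k : ℕ) a, v (k • a) = k * v a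
  lip : ∀ a i, v (a + single i 1) ≤ v a + 1

lemma Nice.zero {v : (σ →₀ ℕ) → ℕ} (h : Nice v) : v 0 = 0 := by
  simpa using h.hom 0 0

lemma Nice.le_add_degree {v : (σ →₀ ℕ) → ℕ} (h : Nice v) (a b : σ →₀ ℕ) :
    v (a + b) ≤ v a + degree b := by
  induction b using Finsupp.induction_linear generalizing a with
  | zero => simp
  | add f g hf hg =>
    rw [← add_assoc, map_add]
    have := hg (a + f)
    have := hf a
    omega
  | single i k =>
    rw [degree_single]
    induction k with
    | zero => simp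
    | succ k ih =>
      rw [single_add, ← add_assoc]
      have := h.lip (a + single i k) i
      omega

lemma eventually_const_of_mono {f : ℕ → ℕ} (hf : Monotone f) {B : ℕ} (hB : ∀ k, f k ≤ B) :
    ∃ c, ∀ᶠ k in atTop, f k = c := by
  have hb : BddAbove (Set.range f) := ⟨B, by rintro _ ⟨k, rfl⟩; exact hB k⟩
  obtain ⟨k0, hk0⟩ := Nat.sSup_mem (Set.range_nonempty f) hb
  refine ⟨f k0, ?_⟩
  filter_upwards [eventually_ge_atTop k0] with k hk
  exact le_antisymm (hk0 ▸ le_csSup hb ⟨k, rfl⟩) (hf hk)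

lemma Nice.exists_deriv {v : (σ →₀ ℕ) → ℕ} (h : Nice v) (d : σ →₀ ℕ) :
    ∃ u : (σ →₀ ℕ) → ℕ, (∀ b, v b ≤ u b) ∧
      ∀ b, ∀ᶠ k : ℕ in atTop, v (k • d + b) = k * v d + u b := by
  have key : ∀ b, ∃ c, v b ≤ c ∧ ∀ᶠ k : ℕ in atTop, v (k • d + b) = k * v d + c := by
    intro b
    have h1 : ∀ k : ℕ, k * v d + v b ≤ v (k • d + b) := fun k => h.hom k d ▸ h.add _ _
    have hm : Monotone fun k : ℕ => v (k • d + b) - k * v d := by
      refine monotone_nat_of_le_succ fun k => ?_
      have := h.add d (k • d + b)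
      have := h1 k
      rw [succ_nsmul', add_assoc, add_mul]
      omega
    obtain ⟨c, hc⟩ := eventually_const_of_mono hm (B := degree b) fun k => by
      have := h.le_add_degree (k • d) b
      rw [h.hom] at this
      omega
    refine ⟨c, ?_, ?_⟩
    · obtain ⟨k, hk⟩ := hc.exists
      have := h1 k
      omega
    · filter_upwards [hc] with k hk
      have := h1 k
      omega
  choose u hu using key
  exact ⟨u, fun b => (hu b).1, fun b => (hu b).2⟩

lemma tendsto_mul_atTop {j : ℕ} (hj : 0 < j) : Tendsto (fun k : ℕ => j * k) atTop atTop :=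
  tendsto_atTop_mono (fun k => Nat.le_mul_of_pos_left k hj) tendsto_id

lemma Nice.step {v : (σ →₀ ℕ) → ℕ} (h : Nice v) (d : σ →₀ ℕ) :
    ∃ u : (σ →₀ ℕ) → ℕ, Nice u ∧ (∀ b, v b ≤ u b) ∧ (∀ b, u (b + d) = u b + u d) ∧ u d = v d ∧
      ∀ c, (∀ b, v (b + c) = v b + v c) → (∀ b, u (b + c) = u b + u c) ∧ u c = v c := by
  obtain ⟨u, hle, hu⟩ := h.exists_deriv d
  have u0 : u 0 = 0 := by
    obtain ⟨k, hk⟩ := (hu 0).exists
    rw [add_zero, h.hom] at hk
    omega
  have hd : ∀ b, u (b + d) = u b + v d := by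
    intro b
    obtain ⟨k, h1, h2⟩ := ((hu (b + d)).and
      ((tendsto_add_atTop_nat 1).eventually (hu b))).exists
    rw [succ_nsmul, add_assoc, add_comm d b, h1, add_mul] at h2
    omega
  have hud : u d = v d := by simpa [u0] using hd 0
  refine ⟨u, ⟨fun a b => ?_, fun j a => ?_, fun a i => ?_⟩, hle, fun b => by rw [hd, hud], hud,
    fun c hc => ?_⟩
  · obtain ⟨k, ⟨h1, h2⟩, h3⟩ := (((hu a).and (hu b)).and
      ((tendsto_mul_atTop two_pos).eventually (hu (a + b)))).exists
    have := h.add (k • d + a) (k • d + b)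
    rw [show k • d + a + (k • d + b) = (2 * k) • d + (a + b) by rw [two_mul, add_nsmul]; abel,
      h1, h2, h3, two_mul, add_mul] at this
    omega
  · rcases Nat.eq_zero_or_pos j with rfl | hj
    · simp [u0]
    obtain ⟨k, h1, h2⟩ := ((hu a).and ((tendsto_mul_atTop hj).eventually (hu (j • a)))).exists
    rw [mul_nsmul', ← nsmul_add, h.hom, h1, mul_add, mul_assoc] at h2
    omega
  · obtain ⟨k, h1, h2⟩ := ((hu a).and (hu (a + single i 1))).exists
    have := h.lip (k • d + a) i
    rw [add_assoc] at this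
    omega
  · have : ∀ b, u (b + c) = u b + v c := by
      intro b
      obtain ⟨k, h1, h2⟩ := ((hu b).and (hu (b + c))).exists
      rw [← add_assoc, hc, h1] at h2
      omega
    have e : u c = v c := by simpa [u0] using this 0
    exact ⟨fun b => by rw [this, e], e⟩

lemma Nice.exists_linear [Fintype σ] {v : (σ →₀ ℕ) → ℕ} (h : Nice v) (a : σ →₀ ℕ) :
    ∃ L : Finset σ, (∀ b, v b ≤ ∑ i ∈ L, b i) ∧ v a = ∑ i ∈ L, a i := by
  classical
  have key : ∀ s : Finset σ, ∃ u : (σ →₀ ℕ) → ℕ, Nice u ∧ (∀ b, v b ≤ u b) ∧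
      (∀ b, u (b + a) = u b + u a) ∧ u a = v a ∧
      ∀ i ∈ s, ∀ b, u (b + single i 1) = u b + u (single i 1) := by
    intro s
    induction s using Finset.induction_on with
    | empty =>
      obtain ⟨u, h1, h2, h3, h4, -⟩ := h.step a
      exact ⟨u, h1, h2, h3, h4, by simp⟩
    | insert j s _ ih =>
      obtain ⟨w, h1, h2, h3, h4, h5⟩ := ih
      obtain ⟨u, g1, g2, g3, -, g5⟩ := h1.step (single j 1)
      refine ⟨u, g1, fun b => (h2 b).trans (g2 b), (g5 a h3).1, (g5 a h3).2.trans h4, ?_⟩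
      intro i hi
      rcases Finset.mem_insert.1 hi with rfl | hi
      · exact g3
      · exact (g5 _ (h5 i hi)).1
  obtain ⟨u, h1, h2, -, h4, h5⟩ := key Finset.univ
  have hs : ∀ i k b, u (b + single i k) = u b + k * u (single i 1) := by
    intro i k b
    induction k with
    | zero => simp
    | succ k ih => rw [single_add, ← add_assoc, h5 i (Finset.mem_univ _), ih]; ring
  have hlin : ∀ b, u b = ∑ i, b i * u (single i 1) := by
    intro b
    induction b using Finsupp.induction with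
    | zero => simp [h1.zero]
    | single_add i k f _ _ ih =>
      rw [add_comm, hs, ih]
      simp only [Finsupp.add_apply, add_mul, Finset.sum_add_distrib, Finsupp.single_apply, ite_mul,
        zero_mul, Finset.sum_ite_eq, Finset.mem_univ, if_true]
  have h01 : ∀ i, u (single i 1) ≤ 1 := fun i => by simpa [h1.zero] using h1.lip 0 i
  have e : ∀ b, u b = ∑ i ∈ Finset.univ.filter (fun i => u (single i 1) = 1), b i := by
    intro b
    rw [hlin, Finset.sum_filter]
    refine Finset.sum_congr rfl fun i _ => ?_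
    have := h01 i
    split_ifs with hi
    · rw [hi, mul_one]
    · rw [show u (single i 1) = 0 by omega, mul_zero]
  exact ⟨_, fun b => e b ▸ h2 b, h4 ▸ e a⟩

/-- The properties of the relation saying that a monomial is a leading monomial in the `n`-th
piece of a filtration. -/
structure Good (In : (σ →₀ ℕ) → ℕ → Prop) : Prop where
  zero : ∀ a, In a 0
  add : ∀ a b n m, In a n → In b m → In (a + b) (n + m)
  anti : ∀ a n, In a (n + 1) → In a n
  nzero : ¬ In 0 1
  lip : ∀ a i n, In (a + single i 1) (n + 1) → In a n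
  hom : ∀ (k : ℕ) a n, 0 < k → In (k • a) (k * n + 1) → In a (n + 1)

lemma Good.mono {In : (σ →₀ ℕ) → ℕ → Prop} (h : Good In) {a : σ →₀ ℕ} {n m : ℕ} (hn : In a n)
    (hm : m ≤ n) : In a m := by
  induction hm with
  | refl => exact hn
  | step _ ih => exact ih (h.anti _ _ hn)

lemma Good.sub {In : (σ →₀ ℕ) → ℕ → Prop} (h : Good In) (b : σ →₀ ℕ) :
    ∀ (a : σ →₀ ℕ) (n : ℕ), In (a + b) (n + degree b) → In a n := by
  induction b using Finsupp.induction_linear with
  | zero => simp
  | add f g hf hg =>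
    intro a n hn
    rw [map_add, ← add_assoc, ← add_assoc] at hn
    exact hf _ _ (hg _ _ hn)
  | single i k =>
    rw [degree_single]
    induction k with
    | zero => simp
    | succ k ih =>
      intro a n hn
      rw [single_add, ← add_assoc, ← add_assoc] at hn
      exact ih _ _ (h.lip _ _ _ hn)

lemma Good.le_degree {In : (σ →₀ ℕ) → ℕ → Prop} (h : Good In) {a : σ →₀ ℕ} {n : ℕ}
    (hn : In a n) : n ≤ degree a := by
  by_contra hc
  refine h.nzero (h.sub a 0 1 ?_)
  rw [zero_add]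
  exact h.mono hn (by omega)

lemma Good.nsmul {In : (σ →₀ ℕ) → ℕ → Prop} (h : Good In) {a : σ →₀ ℕ} {n : ℕ}
    (hn : In a n) (k : ℕ) : In (k • a) (k * n) := by
  induction k with
  | zero => simpa using h.zero 0
  | succ k ih => rw [succ_nsmul, add_mul, one_mul]; exact h.add _ _ _ _ ih hn

lemma Good.exists_nice {In : (σ →₀ ℕ) → ℕ → Prop} (h : Good In) :
    ∃ v : (σ →₀ ℕ) → ℕ, Nice v ∧ ∀ a n, In a n ↔ n ≤ v a := by
  have hb : ∀ a, BddAbove {n | In a n} := fun a => ⟨degree a, fun n hn => h.le_degree hn⟩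
  have hm : ∀ a, In a (sSup {n | In a n}) := fun a => Nat.sSup_mem ⟨0, h.zero a⟩ (hb a)
  have e : ∀ a n, In a n ↔ n ≤ sSup {n | In a n} := fun a n =>
    ⟨fun hn => le_csSup (hb a) hn, fun hn => h.mono (hm a) hn⟩
  refine ⟨fun a => sSup {n | In a n}, ⟨fun a b => ?_, fun k a => ?_, fun a i => ?_⟩, e⟩
  · exact (e _ _).1 (h.add _ _ _ _ (hm a) (hm b))
  · refine le_antisymm ?_ ((e _ _).1 (h.nsmul (hm a) k))
    rcases Nat.eq_zero_or_pos k with rfl | hk
    · simpa using h.le_degree (hm 0)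
    by_contra hc
    have := (e _ _).1 (h.hom k a _ hk ((e _ _).2 (Nat.succ_le_of_lt (not_le.1 hc))))
    omega
  · by_contra hc
    have := (e _ _).1 (h.lip a i _ ((e _ _).2 (Nat.succ_le_of_lt (not_le.1 hc))))
    omega

lemma Good.fg [Fintype σ] {In : (σ →₀ ℕ) → ℕ → Prop} (h : Good In) :
    ∃ G : Finset ((σ →₀ ℕ) × ℕ), (∀ x ∈ G, In x.1 x.2) ∧
      ∀ a n, In a n → (a, n) ∈ AddSubmonoid.closure (G : Set ((σ →₀ ℕ) × ℕ)) := by
  classical
  obtain ⟨v, hv, e⟩ := h.exists_nice
  let T := {L : Finset σ // ∀ b, v b ≤ ∑ i ∈ L, b i}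
  have e' : ∀ a n, In a n ↔ ∀ L : T, n ≤ ∑ i ∈ L.1, a i := by
    intro a n
    rw [e]
    refine ⟨fun hn L => hn.trans (L.2 a), fun hn => ?_⟩
    obtain ⟨L, h1, h2⟩ := hv.exists_linear a
    exact h2 ▸ hn ⟨L, h1⟩
  let P : AddSubmonoid (((σ →₀ ℕ) × ℕ) × (T →₀ ℕ)) :=
    { carrier := {x | ∀ L : T, ∑ i ∈ L.1, x.1.1 i = x.1.2 + x.2 L}
      zero_mem' := by intro L; simp
      add_mem' := by
        intro x y hx hy L
        simp only [Prod.fst_add, Prod.snd_add, Finsupp.add_apply, Finset.sum_add_distrib, hx L,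
          hy L]
        omega }
  have hP : P.FG := by
    refine AddSubmonoid.fg_of_subtractive fun x hx y hxy L => ?_
    have h1 := hx L
    have h2 := hxy L
    simp only [Prod.fst_add, Prod.snd_add, Finsupp.add_apply, Finset.sum_add_distrib] at h2
    omega
  obtain ⟨G, hG⟩ := hP.map (AddMonoidHom.fst _ _)
  have hm : ∀ x : (σ →₀ ℕ) × ℕ, x ∈ P.map (AddMonoidHom.fst _ _) ↔ In x.1 x.2 := by
    intro x
    rw [e']
    constructor
    · rintro ⟨y, hy, rfl⟩ L
      have := hy L
      simp only [AddMonoidHom.coe_fst]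
      omega
    · intro hx
      refine ⟨(x, Finsupp.equivFunOnFinite.symm fun L => ∑ i ∈ L.1, x.1 i - x.2), fun L => ?_, rfl⟩
      have := hx L
      simp only [Finsupp.equivFunOnFinite_symm_apply_apply]
      omega
  refine ⟨G, fun x hx => (hm x).1 (hG ▸ AddSubmonoid.subset_closure hx), fun a n hn => ?_⟩
  rw [hG]
  exact (hm (a, n)).2 hn

end Pool.Agent.MP_e85a6b_ag

end

-- part MP_e85a6b_ag.Sagbi
section

/-!
Leading monomials of a filtration and the SAGBI argument.
-/

set_option autoImplicit false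

namespace Pool.Agent.MP_e85a6b_ag

open MvPolynomial Finsupp
open scoped MonomialOrder

variable {σ K : Type*} [Field K] (mo : MonomialOrder σ)

lemma exists_monic {g : MvPolynomial σ K} (hg : g ≠ 0) :
    mo.Monic (C (mo.leadingCoeff g)⁻¹ * g) ∧ mo.degree (C (mo.leadingCoeff g)⁻¹ * g) = mo.degree g := by
  have h : mo.leadingCoeff g ≠ 0 := mo.leadingCoeff_ne_zero_iff.2 hg
  constructor
  · unfold MonomialOrder.Monic
    rw [mo.leadingCoeff_mul, mo.leadingCoeff_C, inv_mul_cancel₀ h]
  · rw [mo.degree_mul (by simpa using hg) hg, mo.degree_C, zero_add]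

lemma degree_eq_of {R : Type*} [CommSemiring R] {g : MvPolynomial σ R} {a : σ →₀ ℕ}
    (h1 : g.coeff a ≠ 0) (h2 : ∀ b, a ≺[mo] b → g.coeff b = 0) : mo.degree g = a := by
  apply mo.toSyn.injective
  refine le_antisymm (mo.degree_le_iff.2 fun c hc => ?_) (mo.le_degree (MvPolynomial.mem_support_iff.2 h1))
  by_contra hlt
  exact MvPolynomial.mem_support_iff.1 hc (h2 c (not_le.1 hlt))

lemma monic_of {R : Type*} [CommSemiring R] [Nontrivial R] {g : MvPolynomial σ R} {a : σ →₀ ℕ}
    (h1 : g.coeff a = 1) (h2 : ∀ b, a ≺[mo] b → g.coeff b = 0) : mo.Monic g ∧ mo.degree g = a := by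
  have e := degree_eq_of mo (h1 ▸ one_ne_zero) h2
  refine ⟨?_, e⟩
  unfold MonomialOrder.Monic MonomialOrder.leadingCoeff
  rw [e, h1]

/-- reduction: an ideal whose leading monomials are all divisible by leading monomials of a
smaller ideal equals it -/
lemma le_of_degree {I J : Ideal (MvPolynomial σ K)} (hJ : J ≤ I)
    (h : ∀ g ∈ I, g ≠ 0 → ∃ g' ∈ J, mo.Monic g' ∧ mo.degree g' ≤ mo.degree g) : I ≤ J := by
  have key : ∀ d : mo.syn, ∀ g ∈ I, mo.toSyn (mo.degree g) = d → g ∈ J := by
    intro d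
    induction d using WellFoundedLT.induction with
    | ind d ih =>
      intro g hg hd
      by_cases h0 : g = 0
      · rw [h0]; exact J.zero_mem
      obtain ⟨g', hg', hm, hle⟩ := h g hg h0
      set w := monomial (mo.degree g - mo.degree g') (mo.leadingCoeff g) * g' with hw
      have hlc : mo.leadingCoeff g ≠ 0 := mo.leadingCoeff_ne_zero_iff.2 h0
      have hwd : mo.degree w = mo.degree g := by
        classical
        rw [hw, mo.degree_mul (by simpa using h0) hm.ne_zero, mo.degree_monomial, if_neg hlc,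
          tsub_add_cancel_of_le hle]
      have hwc : mo.leadingCoeff w = mo.leadingCoeff g := by
        rw [hw, mo.leadingCoeff_mul, mo.leadingCoeff_monomial, hm.leadingCoeff_eq_one, mul_one]
      have hwJ : w ∈ J := J.mul_mem_left _ hg'
      have : g - w ∈ J := by
        by_cases h1 : g - w = 0
        · rw [h1]; exact J.zero_mem
        refine ih _ ?_ _ (I.sub_mem hg (hJ hwJ)) rfl
        rw [← hd]
        refine lt_of_le_of_ne (by simpa [hwd] using mo.degree_sub_le (f := g) (g := w)) fun e => ?_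
        have e' := mo.toSyn.injective e
        apply mo.coeff_degree_ne_zero_iff.2 h1
        rw [e', coeff_sub]
        unfold MonomialOrder.leadingCoeff at hwc
        rw [hwd] at hwc
        rw [hwc, sub_self]
      simpa using J.add_mem this hwJ
  exact fun g hg => key _ g hg rfl

/-- `x^a` is the leading monomial of an element of `I n`. -/
def Lead (I : ℕ → Ideal (MvPolynomial σ K)) (a : σ →₀ ℕ) (n : ℕ) : Prop :=
  ∃ g ∈ I n, mo.Monic g ∧ mo.degree g = a

/-- multiplicative decreasing filtrations -/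
structure Filt {R : Type*} [CommRing R] (I : ℕ → Ideal R) : Prop where
  zero : ∀ g, g ∈ I 0
  mul : ∀ a b x y, x ∈ I a → y ∈ I b → x * y ∈ I (a + b)
  anti : ∀ a, I (a + 1) ≤ I a
  one : (1 : R) ∉ I 1

lemma Filt.mono {R : Type*} [CommRing R] {I : ℕ → Ideal R} (h : Filt I) {a b : ℕ} (hab : a ≤ b) :
    I b ≤ I a := antitone_nat_of_succ_le h.anti hab

lemma Filt.pow {R : Type*} [CommRing R] {I : ℕ → Ideal R} (h : Filt I) {a : ℕ} {x : R}
    (hx : x ∈ I a) (k : ℕ) : x ^ k ∈ I (k * a) := by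
  induction k with
  | zero => simpa using h.zero 1
  | succ k ih => rw [pow_succ, add_mul, one_mul]; exact h.mul _ _ _ _ ih hx

lemma Filt.prod {R ι : Type*} [CommRing R] {I : ℕ → Ideal R} (h : Filt I) (s : Finset ι)
    {a : ι → ℕ} {x : ι → R} (hx : ∀ i ∈ s, x i ∈ I (a i)) : ∏ i ∈ s, x i ∈ I (∑ i ∈ s, a i) := by
  classical
  induction s using Finset.induction_on with
  | empty => simpa using h.zero 1
  | insert j s hj ih =>
    rw [Finset.prod_insert hj, Finset.sum_insert hj]
    exact h.mul _ _ _ _ (hx j (Finset.mem_insert_self _ _))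
      (ih fun i hi => hx i (Finset.mem_insert_of_mem hi))

lemma Filt.pow_le {R : Type*} [CommRing R] {I : ℕ → Ideal R} (h : Filt I) (k : ℕ) :
    I 1 ^ k ≤ I k := by
  induction k with
  | zero => exact fun g _ => h.zero g
  | succ k ih =>
    rw [pow_succ]
    exact Ideal.mul_le.2 fun x hx y hy => h.mul _ _ _ _ (ih hx) hy

variable {mo}

lemma Lead.of_ne_zero {I : ℕ → Ideal (MvPolynomial σ K)} {n : ℕ} {g : MvPolynomial σ K}
    (hg : g ∈ I n) (h0 : g ≠ 0) : Lead mo I (mo.degree g) n :=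
  ⟨_, Ideal.mul_mem_left _ _ hg, exists_monic mo h0⟩

lemma Lead.zero {I : ℕ → Ideal (MvPolynomial σ K)} (h : Filt I) (a : σ →₀ ℕ) : Lead mo I a 0 := by
  classical
  exact ⟨monomial a 1, h.zero _, mo.monic_monomial_one, by simp [mo.degree_monomial]⟩

lemma Lead.add {I : ℕ → Ideal (MvPolynomial σ K)} (h : Filt I) {a b : σ →₀ ℕ} {n m : ℕ}
    (ha : Lead mo I a n) (hb : Lead mo I b m) : Lead mo I (a + b) (n + m) := by
  obtain ⟨f, hf, hfm, rfl⟩ := ha
  obtain ⟨g, hg, hgm, rfl⟩ := hb
  exact ⟨f * g, h.mul _ _ _ _ hf hg, hfm.mul hgm, mo.degree_mul hfm.ne_zero hgm.ne_zero⟩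

lemma Lead.mono {I : ℕ → Ideal (MvPolynomial σ K)} (h : Filt I) {a : σ →₀ ℕ} {n m : ℕ}
    (ha : Lead mo I a n) (hm : m ≤ n) : Lead mo I a m := by
  obtain ⟨f, hf, hfm⟩ := ha
  exact ⟨f, h.mono hm hf, hfm⟩

lemma Lead.nsmul {I : ℕ → Ideal (MvPolynomial σ K)} (h : Filt I) {a : σ →₀ ℕ} {n : ℕ}
    (ha : Lead mo I a n) (k : ℕ) : Lead mo I (k • a) (k * n) := by
  induction k with
  | zero => simpa using Lead.zero h 0
  | succ k ih => rw [succ_nsmul, add_mul, one_mul]; exact ih.add h ha

lemma Lead.nzero {I : ℕ → Ideal (MvPolynomial σ K)} (h : Filt I) : ¬ Lead mo I 0 1 := by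
  rintro ⟨g, hg, hm, hd⟩
  rw [mo.eq_C_of_degree_eq_zero hd, hm.leadingCoeff_eq_one, map_one] at hg
  exact h.one hg

lemma good_of {I : ℕ → Ideal (MvPolynomial σ K)} (h : Filt I)
    (lip : ∀ a i n, Lead mo I (a + single i 1) (n + 1) → Lead mo I a n)
    (hom : ∀ (k : ℕ) a n, 0 < k → Lead mo I (k • a) (k * n + 1) → Lead mo I a (n + 1)) :
    Good (Lead mo I) :=
  ⟨Lead.zero h, fun _ _ _ _ => Lead.add h, fun _ n hn => hn.mono h n.le_succ, Lead.nzero h, lip, hom⟩

lemma noetherian_of_good [Fintype σ] {I : ℕ → Ideal (MvPolynomial σ K)} (h : Filt I)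
    (hG : Good (Lead mo I)) (A : Subalgebra (MvPolynomial σ K) (Polynomial (MvPolynomial σ K)))
    (hA : ∀ f, f ∈ A ↔ ∀ k, f.coeff k ∈ I k) : IsNoetherianRing A := by
  classical
  obtain ⟨G, hG1, hG2⟩ := hG.fg
  choose! g hg using fun x (hx : x ∈ G) => hG1 x hx
  let B := Algebra.adjoin (MvPolynomial σ K)
    ((G.image fun x => Polynomial.monomial x.2 (g x) : Finset _) :
      Set (Polynomial (MvPolynomial σ K)))
  have hmon : ∀ n y, y ∈ I n → Polynomial.monomial n y ∈ A := by
    intro n y hy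
    rw [hA]
    intro k
    rw [Polynomial.coeff_monomial]
    split_ifs with e
    · exact e ▸ hy
    · exact Ideal.zero_mem _
  have h1 : ∀ x ∈ AddSubmonoid.closure (G : Set ((σ →₀ ℕ) × ℕ)),
      ∃ y ∈ I x.2, mo.Monic y ∧ mo.degree y = x.1 ∧ Polynomial.monomial x.2 y ∈ B := by
    intro x hx
    induction hx using AddSubmonoid.closure_induction with
    | mem x hx =>
      refine ⟨g x, (hg x hx).1, (hg x hx).2.1, (hg x hx).2.2, Algebra.subset_adjoin ?_⟩
      simp only [Finset.coe_image]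
      exact ⟨x, hx, rfl⟩
    | zero => exact ⟨1, h.zero 1, mo.monic_one, mo.degree_one, B.one_mem⟩
    | add x x' _ _ ih ih' =>
      obtain ⟨y, a1, a2, a3, a4⟩ := ih
      obtain ⟨y', b1, b2, b3, b4⟩ := ih'
      refine ⟨y * y', h.mul _ _ _ _ a1 b1, a2.mul b2, ?_, ?_⟩
      · rw [mo.degree_mul a2.ne_zero b2.ne_zero, a3, b3, Prod.fst_add]
      · rw [Prod.snd_add, ← Polynomial.monomial_mul_monomial]
        exact B.mul_mem a4 b4
  have h2 : ∀ n, ∀ y ∈ I n, Polynomial.monomial n y ∈ B := by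
    intro n y hy
    have := le_of_degree mo (I := I n)
      (J := I n ⊓ (Subalgebra.toSubmodule B).comap (Polynomial.monomial n)) inf_le_left
      (fun y hy h0 => by
        obtain ⟨y', a1, a2, a3, a4⟩ := h1 _ (hG2 _ _ (Lead.of_ne_zero hy h0))
        exact ⟨y', ⟨a1, a4⟩, a2, a3.le⟩) hy
    exact this.2
  have : A.FG := by
    refine ⟨_, le_antisymm (Algebra.adjoin_le ?_ : B ≤ A) fun f hf => ?_⟩
    · simp only [Finset.coe_image]
      rintro _ ⟨x, hx, rfl⟩
      exact hmon _ _ (hg x hx).1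
    · rw [f.as_sum_support]
      exact Subalgebra.sum_mem _ fun k _ => h2 k _ ((hA f).1 hf k)
  exact isNoetherianRing_of_fg this

end Pool.Agent.MP_e85a6b_ag

end

-- part MP_e85a6b_ag.Trop
section

/-!
Points over a ring of generalized Laurent polynomials with prescribed leading exponents.
-/

set_option autoImplicit false
set_option linter.unusedSectionVars false

namespace Pool.Agent.MP_e85a6b_ag

open Matrix
open scoped MonomialOrder

variable {R Γ : Type*} [CommRing R] [AddCommGroup Γ] [LinearOrder Γ] [IsOrderedAddMonoid Γ]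

/-- all exponents are at most `β` -/
def Bd (β : Γ) (x : AddMonoidAlgebra R Γ) : Prop := ∀ γ, β < γ → x.coeff γ = 0

lemma Bd.mono {β β' : Γ} {x : AddMonoidAlgebra R Γ} (h : Bd β x) (hb : β ≤ β') : Bd β' x :=
  fun γ hγ => h γ (hb.trans_lt hγ)

lemma Bd.zero (β : Γ) : Bd β (0 : AddMonoidAlgebra R Γ) := fun _ _ => by simp

lemma Bd.add {β : Γ} {x y : AddMonoidAlgebra R Γ} (h : Bd β x) (h' : Bd β y) : Bd β (x + y) :=
  fun γ hγ => by simp [h γ hγ, h' γ hγ]

lemma Bd.sub {β : Γ} {x y : AddMonoidAlgebra R Γ} (h : Bd β x) (h' : Bd β y) : Bd β (x - y) :=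
  fun γ hγ => by simp [h γ hγ, h' γ hγ]

lemma Bd.sum {β : Γ} {α : Type*} (s : Finset α) {x : α → AddMonoidAlgebra R Γ}
    (h : ∀ a ∈ s, Bd β (x a)) : Bd β (∑ a ∈ s, x a) :=
  Finset.sum_induction _ _ (fun _ _ => Bd.add) (Bd.zero β) h

lemma Bd.single {β γ : Γ} (h : γ ≤ β) (c : R) : Bd β (AddMonoidAlgebra.single γ c) :=
  fun δ hδ => by simp [Finsupp.single_eq_of_ne (h.trans_lt hδ).ne']

lemma Bd.one : Bd (0 : Γ) (1 : AddMonoidAlgebra R Γ) := Bd.single le_rfl 1

lemma Bd.mul {β β' : Γ} {x y : AddMonoidAlgebra R Γ} (h : Bd β x) (h' : Bd β' y) :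
    Bd (β + β') (x * y) ∧ (x * y).coeff (β + β') = x.coeff β * y.coeff β' := by
  have h1 : ∀ a ∈ x.coeff.support, a ≤ β := fun a ha =>
    not_lt.1 fun hc => Finsupp.mem_support_iff.1 ha (h a hc)
  have h2 : ∀ a ∈ y.coeff.support, a ≤ β' := fun a ha =>
    not_lt.1 fun hc => Finsupp.mem_support_iff.1 ha (h' a hc)
  constructor
  · intro γ hγ
    rw [AddMonoidAlgebra.coeff_mul]
    refine Finset.sum_eq_zero fun a ha => Finset.sum_eq_zero fun b hb => if_neg ?_
    exact ((add_le_add (h1 a ha) (h2 b hb)).trans_lt hγ).ne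
  · rw [AddMonoidAlgebra.coeff_mul, Finsupp.sum_eq_single β, Finsupp.sum_eq_single β', if_pos rfl]
    · intro b _ hb
      rw [if_neg (by simpa using hb)]
    · simp
    · intro a ha hne
      refine Finset.sum_eq_zero fun b hb => if_neg ?_
      exact (add_lt_add_of_lt_of_le
        (lt_of_le_of_ne (h1 a (Finsupp.mem_support_iff.2 ha)) hne) (h2 b hb)).ne
    · simp

lemma Bd.prod {α : Type*} (s : Finset α) {β : α → Γ} {x : α → AddMonoidAlgebra R Γ}
    (h : ∀ a, Bd (β a) (x a)) : Bd (∑ a ∈ s, β a) (∏ a ∈ s, x a) ∧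
      (∏ a ∈ s, x a).coeff (∑ a ∈ s, β a) = ∏ a ∈ s, (x a).coeff (β a) := by
  classical
  induction s using Finset.induction_on with
  | empty => exact ⟨Bd.one, by simp [AddMonoidAlgebra.one_def]⟩
  | insert a s ha ih =>
    rw [Finset.sum_insert ha, Finset.prod_insert ha, Finset.prod_insert ha, ← ih.2]
    exact (h a).mul ih.1

lemma Bd.pow {β : Γ} {x : AddMonoidAlgebra R Γ} (h : Bd β x) (k : ℕ) :
    Bd (k • β) (x ^ k) ∧ (x ^ k).coeff (k • β) = x.coeff β ^ k := by
  simpa using Bd.prod (Finset.range k) (β := fun _ => β) (x := fun _ => x) fun _ => h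

lemma aeval_ne_zero {σ K : Type*} [Fintype σ] [Field K] [Algebra K R] [IsDomain R]
    (mo : MonomialOrder σ) (W : (σ →₀ ℕ) →+ Γ) (hW : ∀ a b, a ≺[mo] b → W a < W b)
    (ξ : σ → AddMonoidAlgebra R Γ) (h1 : ∀ v, Bd (W (Finsupp.single v 1)) (ξ v))
    {g : MvPolynomial σ K} (hg : g ≠ 0)
    (h2 : ∀ v, mo.degree g v ≠ 0 → (ξ v).coeff (W (Finsupp.single v 1)) ≠ 0) :
    MvPolynomial.aeval ξ g ≠ 0 := by
  have hb : ∀ b : σ →₀ ℕ, W b = ∑ v, b v • W (Finsupp.single v 1) := by
    intro b
    conv_lhs => rw [← Finsupp.univ_sum_single b, map_sum]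
    simp only [← map_nsmul, Finsupp.smul_single, smul_eq_mul, mul_one]
  have hp : ∀ b : σ →₀ ℕ, Bd (W b) (∏ v, ξ v ^ b v) ∧ (∏ v, ξ v ^ b v).coeff (W b) =
      ∏ v, (ξ v).coeff (W (Finsupp.single v 1)) ^ b v := by
    intro b
    have := Bd.prod Finset.univ fun v => ((h1 v).pow (b v)).1
    simp only [((h1 _).pow _).2] at this
    rwa [hb]
  intro h0
  have := congrArg (fun x : AddMonoidAlgebra R Γ => x.coeff (W (mo.degree g))) h0
  simp only [MvPolynomial.aeval_def, MvPolynomial.eval₂_eq', ← Algebra.smul_def,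
    AddMonoidAlgebra.coeff_sum, Finsupp.finsetSum_apply, AddMonoidAlgebra.coeff_smul,
    Finsupp.smul_apply, AddMonoidAlgebra.coeff_zero, Finsupp.zero_apply] at this
  rw [Finset.sum_eq_single_of_mem _ (mo.degree_mem_support hg), (hp _).2, smul_eq_zero] at this
  · rcases this with h | h
    · exact mo.coeff_degree_ne_zero_iff.2 hg h
    · obtain ⟨v, -, hv⟩ := Finset.prod_eq_zero_iff.1 h
      obtain ⟨h3, h4⟩ := pow_eq_zero_iff'.1 hv
      exact h2 v h4 h3
  · intro b hb hne
    rw [(hp b).1 _ (hW _ _ (lt_of_le_of_ne (mo.le_degree hb) fun e => hne (mo.toSyn.injective e))),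
      smul_zero]

variable {m t r : ℕ}

lemma exists_potential (hm : 0 < m) (W : Fin m → Fin t → Γ)
    (hdec : ∀ i j j', j < j' → W i j' < W i j)
    (hmon : ∀ i i' j j', i < i' → j < j' → W i j' + W i' j ≤ W i j + W i' j')
    (A : Fin m → Fin t → Prop) (hA : ∀ i j i' j', A i j → A i' j' → i < i' → j' ≤ j) :
    ∃ (u : Fin m → Γ) (v : Fin t → Γ), (∀ i j, u i + v j ≤ W i j) ∧
      (∀ i j, A i j → u i + v j = W i j) ∧ Antitone v := by
  classical
  rcases Nat.eq_zero_or_pos t with rfl | ht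
  · exact ⟨0, 0, fun _ j => j.elim0, fun _ j => j.elim0, fun j => j.elim0⟩
  have : NeZero t := ⟨ht.ne'⟩
  have : Nonempty (Fin m) := ⟨⟨0, hm⟩⟩
  have hmon' : ∀ i i' j j', i < i' → j ≤ j' → W i j' + W i' j ≤ W i j + W i' j' := by
    intro i i' j j' hi hj
    rcases hj.eq_or_lt with rfl | hj
    · exact le_rfl
    · exact hmon _ _ _ _ hi hj
  let Wn : ℕ → Fin t → Γ := fun i j => if h : i < m then W ⟨i, h⟩ j else 0
  let κ : ℕ → Fin t := fun k =>
    (Finset.univ.filter fun j => ∃ i : Fin m, k < i.val ∧ A i j).sup id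
  let u : ℕ → Γ := fun i => ∑ k ∈ Finset.range i, (Wn (k + 1) (κ k) - Wn k (κ k))
  have key : ∀ i j, A i j → ∀ i' : Fin m, W i j - u i ≤ W i' j - u i' := by
    intro i j hij
    have up : ∀ d, i + d < m → Wn i j - u i ≤ Wn (i + d) j - u (i + d) := by
      intro d
      induction d with
      | zero => exact fun _ => le_rfl
      | succ d ih =>
        intro h
        refine (ih (by omega)).trans ?_
        have h1 : κ (i + d) ≤ j := Finset.sup_le fun j' hj' => by
          obtain ⟨i', h2, h3⟩ := (Finset.mem_filter.1 hj').2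
          exact hA _ _ _ _ hij h3 (by rw [Fin.lt_def]; omega)
        have h2 := hmon' ⟨i + d, by omega⟩ ⟨i + d + 1, h⟩ _ _ (by simp [Fin.lt_def]) h1
        simp only [u, Wn, ← add_assoc, Finset.sum_range_succ,
          dif_pos (show i + d + 1 < m by omega), dif_pos (show i + d < m by omega)]
        rw [← sub_nonneg] at h2 ⊢
        convert h2 using 1
        abel
    have down : ∀ d : ℕ, d ≤ i → Wn i j - u i ≤ Wn (i - d) j - u (i - d) := by
      intro d
      induction d with
      | zero => exact fun _ => le_rfl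
      | succ d ih =>
        intro h
        refine (ih (by omega)).trans ?_
        have hi := i.2
        obtain ⟨k, hk⟩ : ∃ k, i - (d + 1) = k := ⟨_, rfl⟩
        have hk1 : k + 1 < m := by omega
        rw [hk, show i - d = k + 1 by omega]
        have h1 : j ≤ κ k := Finset.le_sup (f := id)
          (Finset.mem_filter.2 ⟨Finset.mem_univ _, i, by omega, hij⟩)
        have h2 := hmon' ⟨k, by omega⟩ ⟨k + 1, hk1⟩ _ _ (by simp [Fin.lt_def]) h1
        simp only [u, Wn, Finset.sum_range_succ, dif_pos hk1, dif_pos (show k < m by omega)]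
        rw [← sub_nonneg] at h2 ⊢
        convert h2 using 1
        abel
    intro i'
    have e : ∀ k : Fin m, W k j = Wn k j := fun k => by simp [Wn]
    rw [e, e]
    rcases le_total i.val i'.val with h | h
    · have := up (i' - i) (by omega)
      rwa [Nat.add_sub_cancel' h] at this
    · have := down (i.val - i'.val) (by omega)
      rwa [Nat.sub_sub_self h] at this
  refine ⟨fun i => u i, fun j => Finset.univ.inf' Finset.univ_nonempty fun i => W i j - u i,
    fun i j => ?_, fun i j hij => ?_, fun j j' h => ?_⟩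
  · exact le_sub_iff_add_le'.1 (Finset.inf'_le (fun i : Fin m => W i j - u i) (Finset.mem_univ i))
  · beta_reduce
    rw [le_antisymm (Finset.inf'_le (fun i : Fin m => W i j - u i) (Finset.mem_univ i))
      (Finset.le_inf' _ _ fun i' _ => key i j hij i'), add_sub_cancel]
  · refine Finset.le_inf' _ _ fun i _ =>
      (Finset.inf'_le (fun i : Fin m => W i j' - u i) (Finset.mem_univ i)).trans ?_
    rcases h.eq_or_lt with rfl | h
    · exact le_rfl
    · exact sub_le_sub_right (hdec _ _ _ h).le _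

/-- unipotent upper triangular matrices with small entries -/
structure Uni (T : Matrix (Fin t) (Fin t) (AddMonoidAlgebra R Γ)) : Prop where
  diag : ∀ j, T j j = 1
  low : ∀ j j', j' < j → T j j' = 0
  bd : ∀ j j', Bd 0 (T j j')

lemma Uni.isUnit {T : Matrix (Fin t) (Fin t) (AddMonoidAlgebra R Γ)} (h : Uni T) :
    IsUnit T.det := by
  rw [det_of_isUpperTriangular (fun i j hij => h.low i j hij)]
  simp [h.diag]

lemma Uni.solve {T : Matrix (Fin t) (Fin t) (AddMonoidAlgebra R Γ)} (h : Uni T) {w : Fin t → Γ}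
    (hw : ∀ j j', j < j' → w j' < w j) {y z : Fin t → AddMonoidAlgebra R Γ}
    (e : ∀ j, ∑ j', T j j' * y j' = z j) (hz : ∀ j, Bd (w j) (z j)) (j : Fin t) :
    Bd (w j) (y j) ∧ (y j).coeff (w j) = (z j).coeff (w j) := by
  induction j using WellFoundedGT.induction with
  | ind j ih =>
    have h1 : y j = z j - ∑ j' ∈ Finset.univ.erase j, T j j' * y j' := by
      rw [← e j, ← Finset.add_sum_erase _ _ (Finset.mem_univ j), h.diag, one_mul,
        add_sub_cancel_right]
    have h2 : ∀ j' ∈ Finset.univ.erase j, Bd (w j) (T j j' * y j') ∧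
        (T j j' * y j').coeff (w j) = 0 := by
      intro j' hj'
      rcases lt_or_gt_of_ne (Finset.ne_of_mem_erase hj') with hlt | hlt
      · rw [h.low _ _ hlt, zero_mul]
        exact ⟨Bd.zero _, rfl⟩
      · have := ((h.bd j j').mul (ih j' hlt).1).1
        rw [zero_add] at this
        exact ⟨this.mono (hw _ _ hlt).le, this _ (hw _ _ hlt)⟩
    rw [h1]
    refine ⟨(hz j).sub (Bd.sum _ fun j' hj' => (h2 j' hj').1), ?_⟩
    rw [AddMonoidAlgebra.coeff_sub, AddMonoidAlgebra.coeff_sum, Finsupp.sub_apply,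
      Finsupp.finsetSum_apply, Finset.sum_eq_zero fun j' hj' => (h2 j' hj').2, sub_zero]

lemma exists_side {K : Type*} [Field K] (hm : 0 < m) (W : Fin m → Fin t → Γ)
    (hdec : ∀ i j j', j < j' → W i j' < W i j)
    (hmon : ∀ i i' j j', i < i' → j < j' → W i j' + W i' j ≤ W i j + W i' j')
    (A : Fin r → Fin m → Fin t → Prop) (hA : ∀ a i j i' j', A a i j → A a i' j' → i < i' → j' ≤ j)
    (piv : Fin r → Fin t) (hpiv : Function.Injective piv) (hle : ∀ a i j, A a i j → piv a ≤ j) :
    ∃ (T : Matrix (Fin t) (Fin t) (AddMonoidAlgebra (Polynomial K) Γ))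
      (U : Matrix (Fin m) (Fin r) (AddMonoidAlgebra (Polynomial K) Γ)), Uni T ∧
      (∀ j, j ∉ Set.range piv → ∀ j', T j j' = if j = j' then 1 else 0) ∧
      (∀ i a, Bd (W i (piv a)) (U i a)) ∧
      (∀ i j, Bd (W i j) ((U * T.submatrix piv id) i j)) ∧
      ∀ a i j, A a i j → ((U * T.submatrix piv id) i j).coeff (W i j) ≠ 0 := by
  classical
  choose u v h1 h2 h3 using fun a => exists_potential hm W hdec hmon (A a) (hA a)
  let T : Matrix (Fin t) (Fin t) (AddMonoidAlgebra (Polynomial K) Γ) :=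
    Matrix.of (Function.extend piv
      (fun a j' => if piv a ≤ j' then AddMonoidAlgebra.single (v a j' - v a (piv a)) 1 else 0)
      fun j j' => if j = j' then 1 else 0)
  have t1 : ∀ a j', T (piv a) j' =
      if piv a ≤ j' then AddMonoidAlgebra.single (v a j' - v a (piv a)) 1 else 0 := by
    intro a j'
    simp only [T, of_apply, hpiv.extend_apply]
  have t2 : ∀ j, j ∉ Set.range piv → ∀ j', T j j' = if j = j' then 1 else 0 := by
    intro j hj j'
    simp only [T, of_apply]
    rw [Function.extend_apply' _ _ _ hj]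
  let U : Matrix (Fin m) (Fin r) (AddMonoidAlgebra (Polynomial K) Γ) :=
    Matrix.of fun i a => AddMonoidAlgebra.single (u a i + v a (piv a)) (Polynomial.X ^ a.val)
  have e : ∀ i j, (U * T.submatrix piv id) i j = ∑ a, if piv a ≤ j then
      AddMonoidAlgebra.single (u a i + v a j) (Polynomial.X ^ a.val) else 0 := by
    intro i j
    rw [mul_apply]
    refine Finset.sum_congr rfl fun a _ => ?_
    rw [submatrix_apply, t1, id]
    split_ifs
    · simp [U, AddMonoidAlgebra.single_mul_single]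
    · simp
  refine ⟨T, U, ⟨fun j => ?_, fun j j' h => ?_, fun j j' => ?_⟩, t2, fun i a => Bd.single (h1 _ _ _) _,
    fun i j => ?_, fun a i j h => ?_⟩
  · by_cases hj : j ∈ Set.range piv
    · obtain ⟨a, rfl⟩ := hj
      simp [t1, AddMonoidAlgebra.one_def]
    · simp [t2 j hj]
  · by_cases hj : j ∈ Set.range piv
    · obtain ⟨a, rfl⟩ := hj
      rw [t1, if_neg (not_le.2 h)]
    · rw [t2 j hj, if_neg h.ne']
  · by_cases hj : j ∈ Set.range piv
    · obtain ⟨a, rfl⟩ := hj
      rw [t1]
      split_ifs with h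
      · exact Bd.single (sub_nonpos.2 (h3 a h)) _
      · exact Bd.zero _
    · rw [t2 j hj]
      split_ifs
      · exact Bd.one
      · exact Bd.zero _
  · rw [e]
    refine Bd.sum _ fun a _ => ?_
    split_ifs
    · exact Bd.single (h1 _ _ _) _
    · exact Bd.zero _
  · intro h0
    have := congrArg (fun p => Polynomial.coeff p a.val) h0
    simp only [e, AddMonoidAlgebra.coeff_sum, Finsupp.finsetSum_apply,
      Polynomial.finsetSum_coeff] at this
    rw [Finset.sum_eq_single_of_mem a (Finset.mem_univ _), if_pos (hle _ _ _ h), h2 _ _ _ h] at this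
    · simp at this
    · intro b _ hb
      split_ifs
      · rw [AddMonoidAlgebra.coeff_single, Finsupp.single_apply]
        split_ifs
        · rw [Polynomial.coeff_X_pow, if_neg (fun e => hb (Fin.ext e.symm))]
        · rfl
      · rfl

lemma exists_point {K : Type*} [Field K] {n s : ℕ} (hm : 0 < m) (hn : 0 < n)
    (W : Fin m → Fin t → Γ) (hdec : ∀ i j j', j < j' → W i j' < W i j)
    (hmon : ∀ i i' j j', i < i' → j < j' → W i j' + W i' j ≤ W i j + W i' j')
    (A : Fin r → Fin m → Fin t → Prop) (hA : ∀ a i j i' j', A a i j → A a i' j' → i < i' → j' ≤ j)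
    (W' : Fin n → Fin t → Γ) (hdec' : ∀ i j j', j < j' → W' i j' < W' i j)
    (hmon' : ∀ i i' j j', i < i' → j < j' → W' i j' + W' i' j ≤ W' i j + W' i' j')
    (A' : Fin s → Fin n → Fin t → Prop)
    (hA' : ∀ a i j i' j', A' a i j → A' a i' j' → i < i' → j' ≤ j)
    (piv : Fin r ⊕ Fin s → Fin t) (hpiv : Function.Injective piv)
    (hle : ∀ a i j, A a i j → piv (.inl a) ≤ j) (hle' : ∀ a i j, A' a i j → piv (.inr a) ≤ j) :
    ∃ (M N : Matrix (Fin t) (Fin t) (AddMonoidAlgebra (Polynomial K) Γ))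
      (U : Matrix (Fin m) (Fin r) (AddMonoidAlgebra (Polynomial K) Γ))
      (U' : Matrix (Fin s) (Fin n) (AddMonoidAlgebra (Polynomial K) Γ)), M * N = 1 ∧
      (∀ i j, Bd (W i j) ((U * M.submatrix (piv ∘ .inl) id) i j)) ∧
      (∀ a i j, A a i j → ((U * M.submatrix (piv ∘ .inl) id) i j).coeff (W i j) ≠ 0) ∧
      (∀ i j, Bd (W' i j) ((N.submatrix id (piv ∘ .inr) * U') j i)) ∧
      ∀ a i j, A' a i j → ((N.submatrix id (piv ∘ .inr) * U') j i).coeff (W' i j) ≠ 0 := by
  classical
  obtain ⟨T, U, a1, a2, -, a4, a5⟩ := exists_side (K := K) hm W hdec hmon A hA (piv ∘ .inl)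
    (hpiv.comp Sum.inl_injective) hle
  obtain ⟨T', U', b1, b2, b3, b4, b5⟩ := exists_side (K := K) hn W' hdec' hmon' A' hA' (piv ∘ .inr)
    (hpiv.comp Sum.inr_injective) hle'
  have hT' : IsUnit T'ᵀ.det := by rw [det_transpose]; exact b1.isUnit
  have c1 : ∀ i j, Bd (W i j) ((U * (T * T'ᵀ⁻¹).submatrix (piv ∘ .inl) id) i j) ∧
      ((U * (T * T'ᵀ⁻¹).submatrix (piv ∘ .inl) id) i j).coeff (W i j) =
      ((U * T.submatrix (piv ∘ .inl) id) i j).coeff (W i j) := by
    intro i
    refine b1.solve (hdec i) (fun j => ?_) (a4 i)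
    have : (U * (T * T'ᵀ⁻¹).submatrix (piv ∘ .inl) id) * T'ᵀ = U * T.submatrix (piv ∘ .inl) id := by
      rw [Matrix.mul_assoc, ← submatrix_id_id T'ᵀ, ← submatrix_mul _ _ _ _ _ Function.bijective_id,
        submatrix_id_id, nonsing_inv_mul_cancel_right _ _ hT']
    rw [← this, mul_apply]
    simp only [transpose_apply, mul_comm]
  set H := T⁻¹.submatrix id (piv ∘ .inr) * U'ᵀ with hH
  set V := (1 : Matrix (Fin t) (Fin t) (AddMonoidAlgebra (Polynomial K) Γ)).submatrix id
    (piv ∘ .inr) * U'ᵀ with hV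
  have mulsub : ∀ P Q : Matrix (Fin t) (Fin t) (AddMonoidAlgebra (Polynomial K) Γ),
      P * (Q.submatrix id (piv ∘ .inr) * U'ᵀ) = (P * Q).submatrix id (piv ∘ .inr) * U'ᵀ := by
    intro P Q
    rw [← Matrix.mul_assoc, submatrix_mul _ _ _ _ _ Function.bijective_id, submatrix_id_id]
  have e1 : T * H = V := by rw [hH, mulsub, mul_nonsing_inv _ a1.isUnit]
  have c2 : ∀ i j, Bd (W' i j) (V j i) := by
    intro i j
    rw [hV, mul_apply]
    refine Bd.sum _ fun b _ => ?_
    rw [submatrix_apply, one_apply, id]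
    split_ifs with h
    · rw [one_mul, h]
      exact b3 i b
    · rw [zero_mul]
      exact Bd.zero _
  have c3 : ∀ i j, Bd (W' i j) (H j i) ∧ (H j i).coeff (W' i j) = (V j i).coeff (W' i j) :=
    fun i => a1.solve (hdec' i) (fun j => by rw [← e1, mul_apply]) (c2 i)
  have e2 : T'ᵀ * (H - V) = H - V := by
    ext1 j i
    conv_rhs => rw [← Matrix.one_mul (H - V)]
    rw [mul_apply, mul_apply]
    refine Finset.sum_congr rfl fun k _ => ?_
    by_cases hk : k ∈ Set.range (piv ∘ .inl)
    · rw [transpose_apply, b2 k, one_apply]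
      · simp only [eq_comm]
      · obtain ⟨a, rfl⟩ := hk
        rintro ⟨b, hb⟩
        simpa using hpiv hb
    · have : V k i = H k i := by
        rw [← e1, mul_apply]
        simp [a2 k hk]
      rw [Matrix.sub_apply, this, sub_self, mul_zero, mul_zero]
  have e3 : (T'ᵀ * T⁻¹).submatrix id (piv ∘ .inr) * U'ᵀ =
      (U' * T'.submatrix (piv ∘ .inr) id)ᵀ + (H - V) := by
    rw [← mulsub, ← hH, ← e2, Matrix.mul_sub, hV, mulsub, mulsub, Matrix.mul_one, transpose_mul,
      transpose_submatrix, add_sub_cancel]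
  refine ⟨T * T'ᵀ⁻¹, T'ᵀ * T⁻¹, U, U'ᵀ, ?_, fun i j => (c1 i j).1, fun a i j h => ?_, fun i j => ?_,
    fun a i j h => ?_⟩
  · rw [Matrix.mul_assoc, nonsing_inv_mul_cancel_left _ _ hT', mul_nonsing_inv _ a1.isUnit]
  · rw [(c1 i j).2]
    exact a5 a i j h
  · rw [e3]
    exact (b4 i j).add ((c3 i j).1.sub (c2 i j))
  · rw [e3, Matrix.add_apply, Matrix.sub_apply, AddMonoidAlgebra.coeff_add,
      AddMonoidAlgebra.coeff_sub, Finsupp.add_apply, Finsupp.sub_apply, (c3 i j).2, sub_self,
      add_zero]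
    exact b5 a i j h

end Pool.Agent.MP_e85a6b_ag

end

-- part MP_e85a6b_ag.Det
section

/-!
Mixed minors: order of vanishing, membership in the ideal and leading monomial.
-/

set_option autoImplicit false

namespace Pool.Agent.MP_e85a6b_ag

open Matrix Equiv

variable {R : Type*} [CommRing R]

lemma det_mul_eq {X B : Type*} [Fintype X] [DecidableEq X] [Fintype B] [DecidableEq B]
    (P : Matrix X B R)
    (Q : Matrix B X R) :
    (P * Q).det = ∑ φ : X → B with Function.Injective φ, ∑ τ : Perm X,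
      Perm.sign τ • ((∏ x, P x (φ x)) * ∏ x, Q (φ (τ x)) x) := by
  have h1 : (P * Q).det = ∑ φ : X → B, (∏ x, P x (φ x)) * (Q.submatrix φ id).det := by
    rw [← det_transpose, det_apply]
    simp only [transpose_apply, mul_apply, Finset.prod_univ_sum, Fintype.piFinset_univ,
      Finset.smul_sum]
    rw [Finset.sum_comm]
    refine Finset.sum_congr rfl fun φ _ => ?_
    rw [← det_transpose, det_apply, Finset.mul_sum]
    refine Finset.sum_congr rfl fun τ _ => ?_
    simp only [Finset.prod_mul_distrib, transpose_apply, submatrix_apply, id, mul_smul_comm]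
  rw [h1, Finset.sum_filter]
  refine Finset.sum_congr rfl fun φ _ => ?_
  split_ifs with h
  · rw [det_apply, Finset.mul_sum]
    simp only [submatrix_apply, id, mul_smul_comm]
  · obtain ⟨a, b, hab, hne⟩ := Function.not_injective_iff.1 h
    rw [det_zero_of_row_eq hne (by ext j; simp [hab]), mul_zero]

lemma det_mul_eq_zero {X B : Type*} [Fintype X] [DecidableEq X] [Fintype B] (P : Matrix X B R)
    (Q : Matrix B X R) (h : Fintype.card B < Fintype.card X) : (P * Q).det = 0 := by
  classical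
  rw [det_mul_eq]
  refine Finset.sum_eq_zero fun φ hφ => ?_
  have := Fintype.card_le_of_injective φ (Finset.mem_filter.1 hφ).2
  omega

lemma det_mem_minors {a b j : ℕ} (A : Matrix (Fin a) (Fin b) R) {κ : Type*} [Fintype κ]
    [DecidableEq κ] (hκ : Fintype.card κ = j) (f : κ → Fin a) (g : κ → Fin b) :
    (A.submatrix f g).det ∈ minors j A := by
  by_cases hf : Function.Injective f
  · by_cases hg : Function.Injective g
    · let e := (Fintype.equivFinOfCardEq hκ).symm
      rw [← det_submatrix_equiv_self e]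
      exact Ideal.subset_span ⟨⟨f ∘ e, hf.comp e.injective⟩, ⟨g ∘ e, hg.comp e.injective⟩, rfl⟩
    · obtain ⟨a, b, hab, hne⟩ := Function.not_injective_iff.1 hg
      rw [det_zero_of_column_eq hne (by intro k; simp [hab])]
      exact Ideal.zero_mem _
  · obtain ⟨a, b, hab, hne⟩ := Function.not_injective_iff.1 hf
    rw [det_zero_of_row_eq hne (by ext j; simp [hab])]
    exact Ideal.zero_mem _

lemma minors_transpose {a b j : ℕ} (A : Matrix (Fin a) (Fin b) R) : minors j Aᵀ ≤ minors j A := by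
  refine Ideal.span_le.2 ?_
  rintro _ ⟨f, g, rfl⟩
  rw [← det_transpose, transpose_submatrix, transpose_transpose]
  exact Ideal.subset_span ⟨g, f, rfl⟩

lemma entry_mem_minors {a b : ℕ} (A : Matrix (Fin a) (Fin b) R) (i : Fin a) (j : Fin b) :
    A i j ∈ minors 1 A := by
  simpa using det_mem_minors A (κ := Unit) (by simp) (fun _ => i) (fun _ => j)

lemma minors_eq_bot {a b j : ℕ} (A : Matrix (Fin a) (Fin b) R) (h : a < j ∨ b < j) :
    minors j A = ⊥ := by
  rw [minors, Ideal.span_eq_bot]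
  rintro _ ⟨f, g, rfl⟩
  have h1 := Fintype.card_le_of_injective f f.injective
  have h2 := Fintype.card_le_of_injective g g.injective
  simp only [Fintype.card_fin] at h1 h2
  omega

variable {t : ℕ} {ι κ : Type*}

/-- the first `c` columns -/
abbrev Ini (t c : ℕ) := {j : Fin t // j.val < c}

/-- rows of `Y` at the positions where `ρ` is defined, unit vectors elsewhere -/
def hat (c : ℕ) (ρ : Fin t → Option ι) (Y : Matrix ι (Fin t) R) : Matrix (Ini t c) (Fin t) R :=
  Matrix.of fun x j => (ρ x).elim (if x.1 = j then 1 else 0) fun i => Y i j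

/-- mixed minors -/
def mix (c : ℕ) (ρ : Fin t → Option ι) (ρ' : Fin t → Option κ) (Y : Matrix ι (Fin t) R)
    (Z : Matrix (Fin t) κ R) : R :=
  (hat c ρ Y * (hat c ρ' Zᵀ)ᵀ).det

/-- number of rows used -/
def cnt (c : ℕ) (ρ : Fin t → Option ι) : ℕ :=
  (Finset.univ.filter fun x : Ini t c => (ρ x).isSome).card

lemma hat_map {R' : Type*} [CommRing R'] (φ : R →+* R') (c : ℕ) (ρ : Fin t → Option ι)
    (Y : Matrix ι (Fin t) R) : (hat c ρ Y).map φ = hat c ρ (Y.map φ) := by
  ext x j
  simp only [hat, map_apply, of_apply]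
  cases ρ x with
  | none => simp [apply_ite φ]
  | some i => simp

lemma map_mix {R' : Type*} [CommRing R'] (φ : R →+* R') (c : ℕ) (ρ : Fin t → Option ι)
    (ρ' : Fin t → Option κ) (Y : Matrix ι (Fin t) R) (Z : Matrix (Fin t) κ R) :
    φ (mix c ρ ρ' Y Z) = mix c ρ ρ' (Y.map φ) (Z.map φ) := by
  rw [mix, mix, RingHom.map_det, RingHom.mapMatrix_apply, Matrix.map_mul, transpose_map, hat_map,
    hat_map, transpose_map]

lemma mix_symm (c : ℕ) (ρ : Fin t → Option ι) (ρ' : Fin t → Option κ) (Y : Matrix ι (Fin t) R)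
    (Z : Matrix (Fin t) κ R) : mix c ρ ρ' Y Z = mix c ρ' ρ Zᵀ Yᵀ := by
  rw [mix, mix, ← det_transpose, transpose_mul, transpose_transpose, transpose_transpose]

lemma hat_mul_apply {B : Type*} (c : ℕ) {ρ : Fin t → Option ι} (Y : Matrix ι (Fin t) R)
    (N : Matrix (Fin t) B R) {x : Ini t c} {i : ι} (h : ρ x = some i) (b : B) :
    (hat c ρ Y * N) x b = (Y * N) i b := by
  simp [mul_apply, hat, h]

lemma prod_hat_mem {B : Type*} [DecidableEq B] {I : ℕ → Ideal R} (hI : Filt I) (c : ℕ)
    (ρ : Fin t → Option ι) (Y : Matrix ι (Fin t) R) (N : Matrix (Fin t) B R) (BR : Finset B)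
    (h : ∀ i, ∀ b ∉ BR, (Y * N) i b ∈ I 1) (φ : Ini t c → B) :
    ∏ x, (hat c ρ Y * N) x (φ x) ∈
      I (cnt c ρ - (Finset.univ.filter fun x : Ini t c => (ρ x).isSome ∧ φ x ∈ BR).card) := by
  have := hI.prod Finset.univ (a := fun x : Ini t c => if (ρ x).isSome ∧ φ x ∉ BR then 1 else 0)
    (x := fun x => (hat c ρ Y * N) x (φ x)) (fun x _ => by
      split_ifs with hx
      · obtain ⟨i, hi⟩ := Option.isSome_iff_exists.1 hx.1
        rw [hat_mul_apply c Y N hi]
        exact h i _ hx.2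
      · exact hI.zero _)
  refine hI.mono ?_ this
  rw [← Finset.card_filter, cnt, ← Finset.card_filter_add_card_filter_not (fun x => φ x ∈ BR),
    Finset.filter_filter, Finset.filter_filter]
  omega

lemma mix_mem_filt {B : Type*} [Fintype B] [DecidableEq B] {I : ℕ → Ideal R} (hI : Filt I)
    (c : ℕ) (ρ : Fin t → Option ι) (ρ' : Fin t → Option κ) (Y : Matrix ι (Fin t) R)
    (Z : Matrix (Fin t) κ R) (N : Matrix (Fin t) B R) (M : Matrix B (Fin t) R) (hNM : N * M = 1)
    (BR BS : Finset B) (hd : Disjoint BR BS) (hY : ∀ i, ∀ b ∉ BR, (Y * N) i b ∈ I 1)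
    (hZ : ∀ l, ∀ b ∉ BS, (M * Z) b l ∈ I 1) :
    mix c ρ ρ' Y Z ∈ I (cnt c ρ + cnt c ρ' -
      min (Fintype.card (Ini t c)) (min (cnt c ρ) BR.card + min (cnt c ρ') BS.card)) := by
  have e : hat c ρ Y * (hat c ρ' Zᵀ)ᵀ = (hat c ρ Y * N) * (hat c ρ' Zᵀ * Mᵀ)ᵀ := by
    rw [transpose_mul, transpose_transpose, Matrix.mul_assoc, ← Matrix.mul_assoc N, hNM,
      Matrix.one_mul]
  rw [mix, e, det_mul_eq]
  refine Ideal.sum_mem _ fun φ hφ => Ideal.sum_mem _ fun τ _ => ?_
  have hφ' := (Finset.mem_filter.1 hφ).2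
  rw [Units.smul_def, zsmul_eq_mul]
  refine Ideal.mul_mem_left _ _ (hI.mono ?_ (hI.mul _ _ _ _ (prod_hat_mem hI c ρ Y N BR hY φ)
    (prod_hat_mem hI c ρ' Zᵀ Mᵀ BS (fun l b hb => by rw [← transpose_mul]; exact hZ l b hb)
      (φ ∘ τ))))
  set A1 := Finset.univ.filter fun x : Ini t c => (ρ x).isSome ∧ φ x ∈ BR
  set A2 := Finset.univ.filter fun x : Ini t c => (ρ' x).isSome ∧ (φ ∘ τ) x ∈ BS
  have h1 : A1.card ≤ cnt c ρ := Finset.card_le_card fun x hx => by simp_all [A1]
  have h2 : A2.card ≤ cnt c ρ' := Finset.card_le_card fun x hx => by simp_all [A2]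
  have h3 : A1.card ≤ BR.card :=
    Finset.card_le_card_of_injOn φ (fun x hx => by simp_all [A1]) hφ'.injOn
  have h4 : A2.card ≤ BS.card :=
    Finset.card_le_card_of_injOn (φ ∘ τ) (fun x hx => by simp_all [A2])
      (hφ'.comp τ.injective).injOn
  have h5 : A1.card + A2.card ≤ Fintype.card (Ini t c) := by
    rw [← Finset.card_map τ.toEmbedding (s := A2), ← Finset.card_union_of_disjoint]
    · exact Finset.card_le_univ _
    · rw [Finset.disjoint_left]
      intro x hx hx2
      obtain ⟨y, hy, rfl⟩ := Finset.mem_map.1 hx2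
      exact Finset.disjoint_left.1 hd (Finset.mem_filter.1 hx).2.2 (Finset.mem_filter.1 hy).2.2
  omega

lemma mix_mem_of_lt (c : ℕ) (ρ : Fin t → Option ι) (ρ' : Fin t → Option κ)
    (Y : Matrix ι (Fin t) R) (Z : Matrix (Fin t) κ R) (J : Ideal R) (hJ : ∀ i l, (Y * Z) i l ∈ J)
    (h : Fintype.card (Ini t c) < cnt c ρ + cnt c ρ') : mix c ρ ρ' Y Z ∈ J := by
  rw [mix, det_apply]
  refine Ideal.sum_mem _ fun τ _ => ?_
  rw [Units.smul_def, zsmul_eq_mul]
  refine Ideal.mul_mem_left _ _ ?_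
  have : ∃ x, (ρ (τ x)).isSome ∧ (ρ' x).isSome := by
    by_contra hc
    rw [cnt, cnt, add_comm, ← Finset.card_map τ.toEmbedding, ← Finset.card_union_of_disjoint] at h
    · exact absurd (Finset.card_le_univ _) (not_le.2 h)
    · rw [Finset.disjoint_left]
      intro x hx hx2
      obtain ⟨y, hy, rfl⟩ := Finset.mem_map.1 hx
      exact hc ⟨y, (Finset.mem_filter.1 hx2).2, (Finset.mem_filter.1 hy).2⟩
  obtain ⟨x, h1, h2⟩ := this
  obtain ⟨i, hi⟩ := Option.isSome_iff_exists.1 h1
  obtain ⟨l, hl⟩ := Option.isSome_iff_exists.1 h2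
  refine Ideal.prod_mem _ (Finset.mem_univ x) ?_
  rw [hat_mul_apply c Y _ hi]
  convert hJ i l using 1
  simp [mul_apply, hat, hl]

lemma mix_mem_minors {m : ℕ} (c : ℕ) (ρ : Fin t → Option (Fin m)) (Y : Matrix (Fin m) (Fin t) R)
    (Z : Matrix (Fin t) κ R) : mix c ρ (fun _ => none) Y Z ∈ minors (cnt c ρ) Y := by
  have e : hat c ρ Y * (hat c (fun _ => none) Zᵀ)ᵀ = (hat c ρ Y).submatrix id Subtype.val := by
    ext x x'
    simp [mul_apply, hat]
  rw [mix, e, twoBlockTriangular_det _ (fun x : Ini t c => (ρ x).isSome)]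
  · refine Ideal.mul_mem_right _ _ ?_
    convert det_mem_minors Y (κ := {x : Ini t c // (ρ x).isSome}) (j := cnt c ρ)
      (by rw [Fintype.card_subtype, cnt]) (fun x => (ρ x.1).get x.2) (fun x => x.1.1) using 2
    ext x x'
    obtain ⟨i, hi⟩ := Option.isSome_iff_exists.1 x.2
    simp [toSquareBlockProp, toBlock, hat, hi]
  · intro x hx x' hx'
    have h1 : ρ x = none := by simpa using hx
    have h2 : x.1 ≠ x'.1 := fun h => hx (h ▸ hx')
    simp [hat, h1, h2]

end Pool.Agent.MP_e85a6b_ag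

end

-- part MP_e85a6b_ag.LeadMix
section

/-!
The leading monomial of a mixed minor.
-/

set_option autoImplicit false

namespace Pool.Agent.MP_e85a6b_ag

open Matrix Equiv MvPolynomial Finsupp MonomialOrder
open scoped MonomialOrder

variable {σ : Type*} [LinearOrder σ] [WellFoundedGT σ]

lemma lt_of_lex {a b : σ →₀ ℕ} (hd : a.degree = b.degree) (v : σ) (h1 : ∀ w < v, a w = b w)
    (h2 : a v < b v) : a ≺[degLex] b := by
  rw [degLex_lt_iff, Finsupp.DegLex.lt_iff]
  exact Or.inr ⟨hd, Finsupp.Lex.lt_iff.2 ⟨v, h1, h2⟩⟩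

lemma finite_lt [Finite σ] (a : σ →₀ ℕ) : {b | b ≺[degLex] a}.Finite := by
  refine (finite_of_degree_le a.degree).subset fun b hb => ?_
  rw [Set.mem_ofPred_eq, degLex_lt_iff, Finsupp.DegLex.lt_iff] at hb
  rcases hb with h | h
  · exact h.le
  · exact h.1.le

variable {t : ℕ} {ι κ : Type*} [LinearOrder ι] [LinearOrder κ]

/-- variables in a grid, ordered lexicographically -/
def Mono (y : ι → Fin t → σ) : Prop :=
  ∀ i j i' j', y i j < y i' j' ↔ i < i' ∨ (i = i' ∧ j < j')

/-- strictly monotone where defined -/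
def Chain (ρ : Fin t → Option ι) : Prop :=
  ∀ j j' i i', ρ j = some i → ρ j' = some i' → j < j' → i < i'

omit [WellFoundedGT σ] in
lemma Mono.inj {y : ι → Fin t → σ} (hy : Mono y) {i i' : ι} {j j' : Fin t} (h : y i j = y i' j') :
    i = i' ∧ j = j' := by
  have h1 := (hy i j i' j').not.1 (h ▸ lt_irrefl _)
  have h2 := (hy i' j' i j).not.1 (h ▸ lt_irrefl _)
  push Not at h1 h2
  have e := le_antisymm h2.1 h1.1
  exact ⟨e, le_antisymm (h2.2 e.symm) (h1.2 e)⟩

/-- exponent of a term in a mixed minor -/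
noncomputable def ex (c : ℕ) (y : ι → Fin t → σ) (ρ : Fin t → Option ι) (ψ : Ini t c → Fin t) :
    σ →₀ ℕ :=
  ∑ x : Ini t c, (ρ x).elim 0 fun i => single (y i (ψ x)) 1

omit [LinearOrder σ] [WellFoundedGT σ] [LinearOrder ι] in
lemma degree_ex (c : ℕ) (y : ι → Fin t → σ) (ρ : Fin t → Option ι) (ψ : Ini t c → Fin t) :
    (ex c y ρ ψ).degree = cnt c ρ := by
  rw [ex, map_sum, cnt, Finset.card_filter]
  refine Finset.sum_congr rfl fun x _ => ?_
  cases ρ x <;> simp

lemma ex_lt {c : ℕ} {y : ι → Fin t → σ} (hy : Mono y) {ρ : Fin t → Option ι} (hρ : Chain ρ)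
    {ψ : Ini t c → Fin t} (hψ : Function.Injective ψ) (h0 : ∀ x : Ini t c, ρ x = none → x.1 = ψ x)
    (hne : ψ ≠ Subtype.val) : ex c y ρ ψ ≺[degLex] ex c y ρ Subtype.val := by
  classical
  obtain ⟨x0, hx0, hmin⟩ := Finset.exists_min_image (Finset.univ.filter fun x => ψ x ≠ x.1)
    Subtype.val (by
      obtain ⟨x, hx⟩ := Function.ne_iff.1 hne
      exact ⟨x, by simpa using hx⟩)
  simp only [Finset.mem_filter, Finset.mem_univ, true_and] at hx0 hmin
  obtain ⟨i0, hi0⟩ := Option.ne_none_iff_exists'.1 fun h => hx0 (h0 x0 h).symm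
  have hlt : x0.1 < ψ x0 := by
    refine lt_of_le_of_ne (not_lt.1 fun h => ?_) hx0.symm
    have h1 : ψ ⟨ψ x0, lt_trans h x0.2⟩ = ψ x0 := by
      by_contra h2
      exact absurd (hmin _ h2) (not_le.2 h)
    exact h.ne (congrArg Subtype.val (hψ h1))
  have key : ∀ x : Ini t c, ψ x ≠ x.1 → ∀ i, ρ x = some i →
      y i0 x0 < y i (ψ x) ∧ y i0 x0 ≤ y i x := by
    intro x hx i hi
    rcases (hmin x hx).eq_or_lt with e | e
    · have e' := Subtype.ext e
      subst e'
      rw [hi0] at hi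
      cases hi
      exact ⟨(hy _ _ _ _).2 (Or.inr ⟨rfl, hlt⟩), le_rfl⟩
    · have := hρ _ _ _ _ hi0 hi e
      exact ⟨(hy _ _ _ _).2 (Or.inl this), ((hy _ _ _ _).2 (Or.inl this)).le⟩
  refine lt_of_lex (by rw [degree_ex, degree_ex]) (y i0 x0) (fun w hw => ?_) ?_
  · simp only [ex, Finsupp.finsetSum_apply]
    refine Finset.sum_congr rfl fun x _ => ?_
    by_cases hx : ψ x = x.1
    · rw [hx]
    · rcases hi : ρ x with _ | i
      · rfl
      · obtain ⟨h1, h2⟩ := key x hx i hi
        simp only [Option.elim_some]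
        rw [single_eq_of_ne (hw.trans h1).ne, single_eq_of_ne (hw.trans_le h2).ne]
  · simp only [ex, Finsupp.finsetSum_apply]
    refine Finset.sum_lt_sum (fun x _ => ?_) ⟨x0, Finset.mem_univ _, ?_⟩
    · by_cases hx : ψ x = x.1
      · rw [hx]
      · rcases hi : ρ x with _ | i
        · rfl
        · simp only [Option.elim_some]
          rw [single_eq_of_ne (key x hx i hi).1.ne]
          exact Nat.zero_le _
    · simp only [hi0, Option.elim_some]
      rw [single_eq_of_ne (key x0 hx0 i0 hi0).1.ne]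
      simp

lemma ex_le {c : ℕ} {y : ι → Fin t → σ} (hy : Mono y) {ρ : Fin t → Option ι} (hρ : Chain ρ)
    {ψ : Ini t c → Fin t} (hψ : Function.Injective ψ)
    (h0 : ∀ x : Ini t c, ρ x = none → x.1 = ψ x) :
    ex c y ρ ψ ≼[degLex] ex c y ρ Subtype.val := by
  by_cases h : ψ = Subtype.val
  · rw [h]
  · exact (ex_lt hy hρ hψ h0 h).le

variable {K : Type*} [CommRing K]

omit [LinearOrder σ] [WellFoundedGT σ] [LinearOrder ι] in
lemma prod_hat (c : ℕ) (y : ι → Fin t → σ) (ρ : Fin t → Option ι) (ψ : Ini t c → Fin t) :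
    ∏ x, hat c ρ (Matrix.of fun i j => (X (y i j) : MvPolynomial σ K)) x (ψ x) =
      if ∀ x : Ini t c, ρ x = none → x.1 = ψ x then monomial (ex c y ρ ψ) 1 else 0 := by
  split_ifs with h
  · rw [ex, monomial_sum_one]
    refine Finset.prod_congr rfl fun x _ => ?_
    rcases hi : ρ x with _ | i
    · simp [hat, hi, ← h x hi]
    · simp [hat, hi, X]
  · push Not at h
    obtain ⟨x, h1, h2⟩ := h
    exact Finset.prod_eq_zero (Finset.mem_univ x) (by simp [hat, h1, h2])

lemma lead_mix [Nontrivial K] (c : ℕ) {y : ι → Fin t → σ} {z : κ → Fin t → σ} (hy : Mono y)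
    (hz : Mono z) {ρ : Fin t → Option ι} {ρ' : Fin t → Option κ} (hρ : Chain ρ) (hρ' : Chain ρ') :
    degLex.Monic (mix c ρ ρ' (Matrix.of fun i j => (X (y i j) : MvPolynomial σ K))
      (Matrix.of fun j l => X (z l j))) ∧
    degLex.degree (mix c ρ ρ' (Matrix.of fun i j => (X (y i j) : MvPolynomial σ K))
      (Matrix.of fun j l => X (z l j))) = ex c y ρ Subtype.val + ex c z ρ' Subtype.val := by
  classical
  have e : (Matrix.of fun j l => (X (z l j) : MvPolynomial σ K))ᵀ =
      Matrix.of fun l j => X (z l j) := rfl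
  have key : ∀ (φ : Ini t c → Fin t) (τ : Perm (Ini t c)) (b : σ →₀ ℕ), Function.Injective φ →
      (φ ≠ Subtype.val ∨ τ ≠ 1 ∨ b ≠ ex c y ρ Subtype.val + ex c z ρ' Subtype.val) →
      ex c y ρ Subtype.val + ex c z ρ' Subtype.val ≼[degLex] b →
      coeff b (Perm.sign τ • ((∏ x, hat c ρ (Matrix.of fun i j =>
        (X (y i j) : MvPolynomial σ K)) x (φ x)) *
        ∏ x, (hat c ρ' (Matrix.of fun l j => X (z l j)))ᵀ (φ (τ x)) x)) = 0 := by
    intro φ τ b hφ h hb
    simp only [transpose_apply]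
    rw [prod_hat, prod_hat c z ρ' fun x => φ (τ x)]
    split_ifs with h1 h2
    · rw [monomial_mul, coeff_smul, coeff_monomial, if_neg, smul_zero]
      intro e
      have l1 := ex_le hy hρ hφ h1
      have l2 := ex_le hz hρ' (hφ.comp τ.injective) h2
      rw [← e, map_add, map_add] at hb
      by_cases h3 : φ = Subtype.val
      · by_cases h4 : τ = 1
        · subst h3 h4
          simp only [ne_eq, not_true_eq_false, false_or] at h
          exact h e.symm
        · refine absurd (add_lt_add_of_le_of_lt l1 (ex_lt hz hρ' (hφ.comp τ.injective) h2 ?_))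
            (not_lt.2 hb)
          intro h5
          apply h4
          ext x
          rw [h3] at h5
          exact congrArg Fin.val (congrFun h5 x)
      · exact absurd (add_lt_add_of_lt_of_le (ex_lt hy hρ hφ h1 h3) l2) (not_lt.2 hb)
    all_goals simp
  rw [mix, det_mul_eq, e]
  refine monic_of _ ?_ fun b hb => ?_
  · rw [coeff_sum, Finset.sum_eq_single_of_mem Subtype.val (by simp [Subtype.val_injective]),
      coeff_sum, Finset.sum_eq_single_of_mem 1 (Finset.mem_univ _)]
    · simp only [transpose_apply, Perm.coe_one, id_eq]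
      rw [prod_hat, prod_hat c z ρ' Subtype.val]
      simp [monomial_mul]
    · exact fun τ _ hτ => key _ _ _ Subtype.val_injective (Or.inr (Or.inl hτ)) le_rfl
    · intro φ hφ hne
      rw [coeff_sum]
      exact Finset.sum_eq_zero fun τ _ => key _ _ _ (Finset.mem_filter.1 hφ).2 (Or.inl hne) le_rfl
  · rw [coeff_sum]
    refine Finset.sum_eq_zero fun φ hφ => ?_
    rw [coeff_sum]
    refine Finset.sum_eq_zero fun τ _ => key _ _ _ (Finset.mem_filter.1 hφ).2
      (Or.inr (Or.inr ?_)) hb.le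
    rintro rfl
    exact lt_irrefl _ hb

end Pool.Agent.MP_e85a6b_ag

end

-- part MP_e85a6b_ag.Transfer
section

/-!
Transfer of leading monomials between fields.
-/

set_option autoImplicit false

namespace Pool.Agent.MP_e85a6b_ag

open MvPolynomial Finsupp
open scoped MonomialOrder

section linear

variable {β ι : Type*} [Fintype β]

/-- solvability of an integer linear system over `K` -/
def Solv (K : Type*) [Field K] (w : ι → ℤ) (M : β → ι → ℤ) : Prop :=
  ∃ c : β → K, ∀ i, (w i : K) + ∑ b, c b * (M b i : K) = 0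

lemma solv_iff_of_hom {K K' : Type*} [Field K] [Field K'] (φ : K →+* K') (w : ι → ℤ)
    (M : β → ι → ℤ) : Solv K w M ↔ Solv K' w M := by
  constructor
  · rintro ⟨c, hc⟩
    refine ⟨fun b => φ (c b), fun i => ?_⟩
    simpa [map_sum] using congrArg φ (hc i)
  · rintro ⟨c, hc⟩
    let _ := φ.toAlgebra
    obtain ⟨π, hπ⟩ := LinearMap.exists_leftInverse_of_injective (Algebra.linearMap K K')
      (LinearMap.ker_eq_bot.2 φ.injective)
    have h1 : π 1 = 1 := by simpa using LinearMap.congr_fun hπ 1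
    have h2 : ∀ (x : K') (z : ℤ), π (x * z) = π x * z := by
      intro x z
      rw [mul_comm, ← zsmul_eq_mul, map_zsmul, zsmul_eq_mul, mul_comm]
    refine ⟨fun b => π (c b), fun i => ?_⟩
    have := congrArg π (hc i)
    rw [map_add, map_sum, map_zero, ← one_mul (w i : K'), h2, h1, one_mul] at this
    simpa only [h2] using this

lemma solv_rat [Fintype ι] (w : ι → ℤ) (M : β → ι → ℤ) :
    ∃ N : ℤ, N ≠ 0 ∧ ∀ (K : Type) [Field K], (N : K) ≠ 0 → (Solv ℚ w M ↔ Solv K w M) := by
  classical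
  by_cases h : Solv ℚ w M
  · obtain ⟨c, hc⟩ := id h
    obtain ⟨⟨N, hN⟩, hz⟩ := IsLocalization.exist_integer_multiples_of_finite (nonZeroDivisors ℤ) c
    choose z hz using hz
    refine ⟨N, nonZeroDivisors.ne_zero hN, fun K _ hK => ⟨fun _ => ?_, fun _ => h⟩⟩
    refine ⟨fun b => (z b : K) / N, fun i => ?_⟩
    have h1 : N * w i + ∑ b, z b * M b i = 0 := by
      apply Int.cast_injective (α := ℚ)
      have := congrArg ((N : ℚ) * ·) (hc i)
      simp only [mul_add, Finset.mul_sum, mul_zero, ← mul_assoc] at this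
      push_cast
      rw [← this]
      congr 1
      refine Finset.sum_congr rfl fun b _ => ?_
      have := hz b
      simp only [eq_intCast, zsmul_eq_mul] at this
      rw [this]
    have h2 := congrArg (Int.cast : ℤ → K) h1
    push_cast at h2
    apply mul_left_cancel₀ hK
    rw [mul_zero, ← h2, mul_add, Finset.mul_sum]
    congr 1
    refine Finset.sum_congr rfl fun b _ => ?_
    field_simp
  · have hw : (fun i => (w i : ℚ)) ∉
        Submodule.span ℚ (Set.range fun b : β => fun i => (M b i : ℚ)) := by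
      intro hw
      obtain ⟨c, hc⟩ := (Submodule.mem_span_range_iff_exists_fun ℚ).1 hw
      refine h ⟨fun b => - c b, fun i => ?_⟩
      rw [← congrFun hc i]
      simp [Finset.sum_apply]
    obtain ⟨f, hf1, hf2⟩ := Submodule.exists_dual_map_eq_bot_of_notMem hw inferInstance
    have hf3 : ∀ b, f (fun i => (M b i : ℚ)) = 0 := fun b => by
      have : f (fun i => (M b i : ℚ)) ∈ (⊥ : Submodule ℚ ℚ) :=
        hf2 ▸ Submodule.mem_map_of_mem (Submodule.subset_span ⟨b, rfl⟩)
      simpa using this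
    obtain ⟨⟨D, hD⟩, hz⟩ := IsLocalization.exist_integer_multiples_of_finite (nonZeroDivisors ℤ)
      (fun i : ι => f fun j => if i = j then 1 else 0)
    choose z hz using hz
    have key : ∀ x : ι → ℤ, ((∑ i, x i * z i : ℤ) : ℚ) = D * f (fun i => (x i : ℚ)) := by
      intro x
      rw [LinearMap.pi_apply_eq_sum_univ f, Finset.mul_sum]
      push_cast
      refine Finset.sum_congr rfl fun i _ => ?_
      have := hz i
      simp only [eq_intCast, zsmul_eq_mul] at this
      rw [this, smul_eq_mul]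
      ring
    refine ⟨∑ i, w i * z i, fun h0 => ?_, fun K _ hK => ⟨fun h' => absurd h' h, ?_⟩⟩
    · have := key w
      rw [h0] at this
      exact mul_ne_zero (Int.cast_ne_zero.2 (nonZeroDivisors.ne_zero hD)) hf1 (by simpa using this.symm)
    · rintro ⟨c, hc⟩
      exfalso
      apply hK
      have h1 : ∀ b, ∑ i, (M b i : K) * z i = 0 := fun b => by
        have : ∑ i, M b i * z i = 0 := by
          apply Int.cast_injective (α := ℚ)
          rw [key, hf3]
          simp
        simpa using congrArg (Int.cast : ℤ → K) this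
      have h2 : ∑ i, ((w i : K) + ∑ b, c b * (M b i : K)) * z i = 0 := by simp [hc]
      simp only [add_mul, Finset.sum_add_distrib, Finset.sum_mul] at h2
      rw [Finset.sum_comm] at h2
      simp only [mul_assoc, ← Finset.mul_sum, h1, mul_zero, Finset.sum_const_zero, add_zero] at h2
      simpa using h2

end linear

variable {σ E P : Type*} (ξ : σ → MvPolynomial E (MvPolynomial P ℤ))

/-- base change of a substitution with integer coefficients -/
noncomputable def thet (K : Type*) [CommRing K] :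
    MvPolynomial σ K →ₐ[K] MvPolynomial E (MvPolynomial P K) :=
  aeval fun v => map (map (Int.castRingHom K)) (ξ v)

/-- the filtration by order of vanishing -/
noncomputable def ord (K : Type*) [CommRing K] (n : ℕ) : Ideal (MvPolynomial σ K) :=
  (idealOfVars E (MvPolynomial P K) ^ n).comap (thet ξ K)

lemma thet_monomial (K : Type*) [CommRing K] (b : σ →₀ ℕ) (r : K) :
    thet ξ K (monomial b r) =
      r • map (map (Int.castRingHom K)) (b.prod fun v k => ξ v ^ k) := by
  rw [thet, aeval_monomial, Algebra.smul_def, map_finsuppProd]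
  simp only [map_pow]

/-- the integer coefficients of the substitution -/
noncomputable def cf (n : ℕ) (b : σ →₀ ℕ) (i : {i : (E →₀ ℕ) × (P →₀ ℕ) // degree i.1 < n}) : ℤ :=
  coeff i.1.2 (coeff i.1.1 (b.prod fun v k => ξ v ^ k))

lemma cf_finite (n : ℕ) (b : σ →₀ ℕ) : {i | cf ξ n b i ≠ 0}.Finite := by
  classical
  set F := b.prod fun v k => ξ v ^ k with hF
  refine Set.Finite.preimage (f := Subtype.val) Subtype.val_injective.injOn
    (s := ↑(F.support ×ˢ F.support.biUnion fun e => (coeff e F).support))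
    (Finset.finite_toSet _) |>.subset fun i hi => ?_
  have h1 : coeff i.1.1 F ≠ 0 := fun h => hi (by simp [cf, ← hF, h])
  simp only [Set.mem_preimage, Finset.mem_coe, Finset.mem_product, Finset.mem_biUnion,
    MvPolynomial.mem_support_iff]
  exact ⟨h1, i.1.1, h1, hi⟩

lemma mem_ord_iff (K : Type*) [CommRing K] (n : ℕ) (s : Finset (σ →₀ ℕ)) (c : (σ →₀ ℕ) → K) :
    (∑ b ∈ s, monomial b (c b)) ∈ ord ξ K n ↔ ∀ i, ∑ b ∈ s, c b * (cf ξ n b i : K) = 0 := by
  rw [ord, Ideal.mem_comap, mem_pow_idealOfVars_iff']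
  have : ∀ e μ, coeff μ (coeff e (thet ξ K (∑ b ∈ s, monomial b (c b)))) =
      ∑ b ∈ s, c b * ((coeff μ (coeff e (b.prod fun v k => ξ v ^ k)) : ℤ) : K) := by
    intro e μ
    simp only [map_sum, coeff_sum, thet_monomial, coeff_smul, coeff_map, smul_eq_mul, eq_intCast]
  constructor
  · intro h i
    refine (this i.1.1 i.1.2).symm.trans ?_
    rw [h _ i.2, coeff_zero]
  · intro h e he
    ext μ
    rw [this]
    exact h ⟨(e, μ), he⟩

lemma lead_iff_solv (mo : MonomialOrder σ) (a : σ →₀ ℕ) (hfin : {b | b ≺[mo] a}.Finite) (n : ℕ)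
    (K : Type*) [Field K] :
    Lead mo (ord ξ K) a n ↔ Solv K (cf ξ n a) (fun b : hfin.toFinset => cf ξ n b) := by
  classical
  have ha : a ∉ hfin.toFinset := by simp
  constructor
  · rintro ⟨g, hg, hm, hd⟩
    have e : g = ∑ b ∈ insert a hfin.toFinset, monomial b (coeff b g) := by
      conv_lhs => rw [g.as_sum]
      refine Finset.sum_subset (fun b hb => ?_) fun b _ hb => ?_
      · rcases (mo.le_degree hb).eq_or_lt with h | h
        · rw [mo.toSyn.injective h, hd]; simp
        · rw [hd] at h; simp [h]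
      · rw [MvPolynomial.notMem_support_iff.1 hb, map_zero]
    rw [e, mem_ord_iff] at hg
    refine ⟨fun b => coeff b g, fun i => ?_⟩
    have := hg i
    rw [Finset.sum_insert ha, show coeff a g = 1 from hd ▸ hm.coeff_degree, one_mul] at this
    rw [← this, Finset.sum_coe_sort hfin.toFinset (fun b => coeff b g * (cf ξ n b i : K))]
  · rintro ⟨c, hc⟩
    let c' : (σ →₀ ℕ) → K := fun b => if h : b ∈ hfin.toFinset then c ⟨b, h⟩ else 1
    refine ⟨∑ b ∈ insert a hfin.toFinset, monomial b (c' b), ?_, monic_of mo ?_ fun b hb => ?_⟩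
    · rw [mem_ord_iff]
      intro i
      rw [Finset.sum_insert ha, ← hc i, ← Finset.sum_coe_sort hfin.toFinset]
      simp only [c', dif_neg ha, one_mul, Finset.coe_mem, dif_pos]
    · simp only [coeff_sum, coeff_monomial, Finset.sum_ite_eq', Finset.mem_insert_self, if_true,
        c', dif_neg ha]
    · simp only [coeff_sum, coeff_monomial, Finset.sum_ite_eq']
      rw [if_neg]
      simp only [Finset.mem_insert, Set.Finite.mem_toFinset, Set.mem_ofPred_eq, not_or]
      exact ⟨fun h => by simp [h] at hb, not_lt.2 hb.le⟩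

lemma solv_rat' {β ι : Type*} [Fintype β] (w : ι → ℤ) (M : β → ι → ℤ) (hw : {i | w i ≠ 0}.Finite)
    (hM : ∀ b, {i | M b i ≠ 0}.Finite) :
    ∃ N : ℤ, N ≠ 0 ∧ ∀ (K : Type) [Field K], (N : K) ≠ 0 → (Solv ℚ w M ↔ Solv K w M) := by
  have hS := hw.union (Set.finite_iUnion hM)
  have key : ∀ (K : Type) [Field K], Solv K w M ↔
      Solv K (fun i : hS.toFinset => w i) (fun b (i : hS.toFinset) => M b i) := by
    intro K _
    refine ⟨fun ⟨c, hc⟩ => ⟨c, fun i => hc i⟩, fun ⟨c, hc⟩ => ⟨c, fun i => ?_⟩⟩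
    by_cases hi : i ∈ hS.toFinset
    · exact hc ⟨i, hi⟩
    · simp only [Set.Finite.mem_toFinset, Set.mem_union, Set.mem_ofPred_eq, Set.mem_iUnion, not_or,
        not_exists, not_not] at hi
      simp [hi.1, hi.2]
  obtain ⟨N, hN, h⟩ := solv_rat (fun i : hS.toFinset => w i) (fun b (i : hS.toFinset) => M b i)
  exact ⟨N, hN, fun K _ hK => by rw [key, key, h K hK]⟩

lemma transfer (mo : MonomialOrder σ) (hfin : ∀ a, {b | b ≺[mo] a}.Finite) {a a' : σ →₀ ℕ}
    {n n' : ℕ} (h : ∀ (p : ℕ) [Fact p.Prime],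
      Lead mo (ord ξ (ZMod p)) a n → Lead mo (ord ξ (ZMod p)) a' n')
    (K : Type*) [Field K] : Lead mo (ord ξ K) a n → Lead mo (ord ξ K) a' n' := by
  simp only [lead_iff_solv ξ mo a (hfin a), lead_iff_solv ξ mo a' (hfin a')] at h ⊢
  obtain ⟨p, hp⟩ := CharP.exists K
  rcases CharP.char_is_prime_or_zero K p with hp' | rfl
  · have := Fact.mk hp'
    rw [← solv_iff_of_hom (ZMod.castHom (dvd_refl p) K),
      ← solv_iff_of_hom (ZMod.castHom (dvd_refl p) K)]
    exact h p
  · have := CharP.charP_to_charZero K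
    rw [← solv_iff_of_hom (algebraMap ℚ K), ← solv_iff_of_hom (algebraMap ℚ K)]
    obtain ⟨N, hN, h1⟩ := solv_rat' (cf ξ n a) (fun b : (hfin a).toFinset => cf ξ n b)
      (cf_finite ξ n a) fun b => cf_finite ξ n b
    obtain ⟨N', hN', h2⟩ := solv_rat' (cf ξ n' a') (fun b : (hfin a').toFinset => cf ξ n' b)
      (cf_finite ξ n' a') fun b => cf_finite ξ n' b
    obtain ⟨p, hp1, hp2⟩ := Nat.exists_infinite_primes ((N * N').natAbs + 1)
    have := Fact.mk hp2
    have h3 : ((N * N' : ℤ) : ZMod p) ≠ 0 := by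
      rw [Ne, ZMod.intCast_zmod_eq_zero_iff_dvd, Int.natCast_dvd]
      intro hd
      have := Nat.le_of_dvd (Int.natAbs_pos.2 (mul_ne_zero hN hN')) hd
      omega
    rw [Int.cast_mul] at h3
    rw [h1 (ZMod p) (left_ne_zero_of_mul h3), h2 (ZMod p) (right_ne_zero_of_mul h3)]
    exact h p

lemma filt_ord (K : Type*) [CommRing K] [Nontrivial K] : Filt (ord ξ K) where
  zero g := by simp [ord]
  mul a b x y hx hy := by
    rw [ord, Ideal.mem_comap] at *
    rw [map_mul, pow_add]
    exact Ideal.mul_mem_mul hx hy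
  anti a := Ideal.comap_mono (Ideal.pow_le_pow_right a.le_succ)
  one := by
    rw [ord, Ideal.mem_comap, map_one, ← C_1, C_mem_pow_idealOfVars_iff]
    simp

lemma mem_ord_one (K : Type*) [CommRing K] (g : MvPolynomial σ K) :
    g ∈ ord ξ K 1 ↔ constantCoeff (thet ξ K g) = 0 := by
  rw [ord, Ideal.mem_comap, mem_pow_idealOfVars_iff']
  refine ⟨fun h => h 0 (by simp), fun h x hx => ?_⟩
  rw [(Finsupp.degree_eq_zero_iff x).1 (by omega)]
  exact h

lemma ord_sat (K : Type*) [CommRing K] [IsDomain K] (s g : MvPolynomial σ K) (n : ℕ)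
    (hs : s ∉ ord ξ K 1) (h : s * g ∈ ord ξ K n) : g ∈ ord ξ K n := by
  classical
  rw [mem_ord_one] at hs
  rw [ord, Ideal.mem_comap, mem_pow_idealOfVars_iff'] at *
  have key : ∀ d x, degree x = d → d < n → coeff x (thet ξ K g) = 0 := by
    intro d
    induction d using Nat.strong_induction_on with
    | _ d ih =>
      intro x hx hd
      have h1 := h x (by omega)
      rw [map_mul, coeff_mul, Finset.sum_eq_single (0, x)] at h1
      · exact (mul_eq_zero.1 h1).resolve_left hs
      · intro y hy hy0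
        have hy' := Finset.HasAntidiagonal.mem_antidiagonal.1 hy
        have h2 : degree y.1 + degree y.2 = d := by rw [← map_add, hy', hx]
        have h3 : degree y.1 ≠ 0 := fun h0 => hy0 (by
          rw [Finsupp.degree_eq_zero_iff] at h0
          rw [h0, zero_add] at hy'
          exact Prod.ext h0 hy')
        rw [ih _ (by omega) y.2 rfl (by omega), mul_zero]
      · simp
  exact fun x hx => key _ x rfl hx

end Pool.Agent.MP_e85a6b_ag

end

-- part MP_e85a6b_ag.Frob
section

/-!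
The Frobenius trace and Hasse derivatives over the prime field.
-/

set_option autoImplicit false

namespace Pool.Agent.MP_e85a6b_ag

open MvPolynomial Finsupp
open scoped MonomialOrder

variable {σ : Type*}

/-- filtrations by symbolic powers of a prime which is locally generated by `u` -/
structure Loc {R E : Type*} [CommRing R] (I : ℕ → Ideal R) (u : E → R) : Prop where
  filt : Filt I
  sat : ∀ s g n, s ∉ I 1 → s * g ∈ I n → g ∈ I n
  mem : ∀ e, u e ∈ I 1
  gen : ∀ D g, g ∈ I D → ∃ s ∉ I 1, s * g ∈ Ideal.span (Set.range u) ^ D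

lemma Loc.pow_notMem {R E : Type*} [CommRing R] {I : ℕ → Ideal R} {u : E → R} (h : Loc I u)
    {s : R} (hs : s ∉ I 1) (k : ℕ) : s ^ k ∉ I 1 := by
  induction k with
  | zero => simpa using h.filt.one
  | succ k ih => rw [pow_succ']; exact fun hc => ih (h.sat _ _ _ hs hc)

section hasse

variable {R : Type*} [CommRing R] [DecidableEq σ]

/-- translation of one variable -/
noncomputable def tay (R : Type*) [CommRing R] (i : σ) :
    MvPolynomial σ R →ₐ[R] Polynomial (MvPolynomial σ R) :=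
  aeval fun v => if v = i then Polynomial.X + Polynomial.C (X v) else Polynomial.C (X v)

lemma tay_monomial (i : σ) (b : σ →₀ ℕ) (r : R) (j : ℕ) :
    (tay R i (monomial b r)).coeff j = monomial (b - single i j) (r * (b i).choose j) := by
  have h1 : tay R i (monomial (b.erase i) r) = Polynomial.C (monomial (b.erase i) r) := by
    rw [tay, aeval_monomial, monomial_eq, map_mul, map_finsuppProd]
    congr 1
    refine Finsupp.prod_congr fun v hv => ?_
    have : v ≠ i := by
      rintro rfl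
      simp at hv
    simp [this]
  have h2 : (monomial b r : MvPolynomial σ R) = monomial (b.erase i) r * X i ^ b i := by
    rw [X_pow_eq_monomial, monomial_mul, mul_one, Finsupp.erase_add_single]
  rw [h2, map_mul, h1, map_pow, tay, aeval_X, if_pos rfl, Polynomial.coeff_C_mul,
    Polynomial.coeff_X_add_C_pow, X_pow_eq_monomial, ← mul_assoc, monomial_mul, mul_one,
    ← map_natCast (C : R →+* MvPolynomial σ R), mul_comm, C_mul_monomial, mul_comm]
  congr 2
  ext v
  by_cases hv : v = i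
  · subst hv
    simp
  · simp [hv, Finsupp.single_eq_of_ne hv]

lemma coeff_tay (i : σ) (g : MvPolynomial σ R) (j : ℕ) (c : σ →₀ ℕ) :
    coeff c ((tay R i g).coeff j) = coeff (c + single i j) g * ((c i + j).choose j : ℕ) := by
  induction g using MvPolynomial.induction_on' with
  | add f g hf hg => simp only [map_add, Polynomial.coeff_add, coeff_add, hf, hg, add_mul]
  | monomial b r =>
    rw [tay_monomial, coeff_monomial, coeff_monomial]
    by_cases h : b = c + single i j
    · subst h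
      simp
    · rw [if_neg h, zero_mul]
      split_ifs with h2
      · have : b i < j := by
          by_contra hc
          apply h
          rw [← h2, tsub_add_cancel_of_le]
          exact Finsupp.single_le_iff.2 (not_lt.1 hc)
        rw [Nat.choose_eq_zero_of_lt this]
        simp
      · rfl

lemma tay_coeff_zero (i : σ) (g : MvPolynomial σ R) : (tay R i g).coeff 0 = g := by
  ext c
  simp [coeff_tay]

lemma Loc.tay_mem {E : Type*} {I : ℕ → Ideal (MvPolynomial σ R)} {u : E → MvPolynomial σ R}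
    (h : Loc I u) (i : σ) {n : ℕ} {g : MvPolynomial σ R} (hg : g ∈ I n) (j : ℕ) :
    (tay R i g).coeff j ∈ I (n - j) := by
  have h1 : ∀ n, ∀ g ∈ I 1 ^ n, ∀ j, (tay R i g).coeff j ∈ I (n - j) := by
    intro n
    induction n with
    | zero => intro g _ j; simpa using h.filt.zero _
    | succ n ih =>
      intro g hg
      rw [pow_succ] at hg
      refine Submodule.mul_induction_on hg (fun x hx y hy j => ?_) fun x y hx hy j => ?_
      · rw [map_mul, Polynomial.coeff_mul]
        refine Ideal.sum_mem _ fun k hk => ?_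
        have hk' := Finset.HasAntidiagonal.mem_antidiagonal.1 hk
        have : (tay R i y).coeff k.2 ∈ I (1 - k.2) := by
          rcases Nat.eq_zero_or_pos k.2 with e | e
          · rw [e, tay_coeff_zero]; exact hy
          · rw [show 1 - k.2 = 0 by omega]; exact h.filt.zero _
        exact h.filt.mono (by omega) (h.filt.mul _ _ _ _ (ih x hx k.1) this)
      · rw [map_add, Polynomial.coeff_add]
        exact Ideal.add_mem _ (hx j) (hy j)
  obtain ⟨s, hs, hsg⟩ := h.gen n g hg
  have h2 := h1 n _ (Ideal.pow_right_mono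
    (Ideal.span_le.2 (by rintro _ ⟨e, rfl⟩; exact h.mem e)) n hsg)
  induction j using Nat.strong_induction_on with
  | _ j ih =>
    refine h.sat s _ _ hs ?_
    have h3 := h2 j
    rw [map_mul, Polynomial.coeff_mul, ← Finset.add_sum_erase _ _
      (a := (0, j)) (by simp), tay_coeff_zero] at h3
    refine (Ideal.add_mem_iff_left _ (Ideal.sum_mem _ fun k hk => ?_)).1 h3
    obtain ⟨hk1, hk2⟩ := Finset.mem_erase.1 hk
    have hk' := Finset.HasAntidiagonal.mem_antidiagonal.1 hk2
    have : k.2 < j := by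
      by_contra hc
      exact hk1 (Prod.ext (by simp only; omega) (by simp only; omega))
    exact Ideal.mul_mem_left _ _ (h.filt.mono (by omega) (ih _ this))

end hasse

section trace

variable [Fintype σ]

/-- the exponent vector of the product of all variables -/
noncomputable def ones (σ : Type*) [Fintype σ] : σ →₀ ℕ :=
  Finsupp.equivFunOnFinite.symm fun _ => 1

@[simp] lemma ones_apply (v : σ) : ones σ v = 1 := rfl

variable (p : ℕ) [hp : Fact p.Prime]

lemma ex_injective : Function.Injective fun b : σ →₀ ℕ => p • b + (p - 1) • ones σ := by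
  intro a b hab
  ext v
  have := DFunLike.congr_fun (add_right_cancel hab) v
  simpa [hp.out.ne_zero] using this

/-- the Frobenius trace -/
noncomputable def tr (g : MvPolynomial σ (ZMod p)) : MvPolynomial σ (ZMod p) :=
  AddMonoidAlgebra.ofCoeff (Finsupp.comapDomain (fun b => p • b + (p - 1) • ones σ)
    (AddMonoidAlgebra.coeff g) (ex_injective p).injOn)

lemma coeff_tr (g : MvPolynomial σ (ZMod p)) (b : σ →₀ ℕ) :
    coeff b (tr p g) = coeff (p • b + (p - 1) • ones σ) g := rfl

lemma tr_add (f g : MvPolynomial σ (ZMod p)) : tr p (f + g) = tr p f + tr p g := by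
  ext b
  simp [coeff_tr]

lemma tr_zero : tr p (0 : MvPolynomial σ (ZMod p)) = 0 := by
  ext b
  simp [coeff_tr]

lemma tr_pow_mul (w g : MvPolynomial σ (ZMod p)) : tr p (w ^ p * g) = w * tr p g := by
  classical
  rw [← expand_zmod]
  induction w using MvPolynomial.induction_on' with
  | add f g hf hg => rw [map_add, add_mul, tr_add, hf, hg, add_mul]
  | monomial c r =>
    ext b
    have hp1 := hp.out.one_lt
    rw [expand_monomial, coeff_tr, coeff_monomial_mul', coeff_monomial_mul', coeff_tr]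
    have : p • c ≤ p • b + (p - 1) • ones σ ↔ c ≤ b := by
      simp only [Finsupp.le_def, Finsupp.add_apply, Finsupp.smul_apply, smul_eq_mul, ones_apply]
      refine forall_congr' fun v => ⟨fun h => ?_, fun h => ?_⟩
      · by_contra hc
        have := Nat.mul_le_mul_left p (Nat.succ_le_of_lt (not_le.1 hc))
        rw [Nat.mul_succ] at this
        omega
      · have := Nat.mul_le_mul_left p h
        omega
    by_cases h : c ≤ b
    · rw [if_pos h, if_pos (this.2 h)]
      congr 2
      ext v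
      have := Nat.mul_le_mul_left p (h v)
      simp only [Finsupp.coe_tsub, Pi.sub_apply, Finsupp.add_apply, Finsupp.smul_apply,
        smul_eq_mul, ones_apply, Nat.mul_sub]
      omega
    · rw [if_neg h, if_neg (mt this.1 h)]

lemma span_pow_le {R E : Type*} [CommRing R] [Fintype E] (u : E → R) (D : ℕ) :
    Ideal.span (Set.range u) ^ D ≤
      Ideal.span {x | ∃ c : E → ℕ, ∑ e, c e = D ∧ x = ∏ e, u e ^ c e} := by
  classical
  induction D with
  | zero =>
    intro x _
    rw [← mul_one x]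
    exact Ideal.mul_mem_left _ x (Ideal.subset_span ⟨0, by simp, by simp⟩)
  | succ D ih =>
    rw [pow_succ]
    refine (Ideal.mul_mono_left ih).trans ?_
    rw [Ideal.span_mul_span']
    refine Ideal.span_mono ?_
    rintro _ ⟨_, ⟨c, hc, rfl⟩, _, ⟨e, rfl⟩, rfl⟩
    refine ⟨c + Pi.single e 1, by simp [Finset.sum_add_distrib, hc], ?_⟩
    simp only [Pi.add_apply, pow_add, Finset.prod_mul_distrib]
    congr 1
    rw [Finset.prod_eq_single e (fun b _ hb => by simp [hb]) (by simp)]
    simp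

variable {p} {E : Type*} [Fintype E] {I : ℕ → Ideal (MvPolynomial σ (ZMod p))}
  {u : E → MvPolynomial σ (ZMod p)} {mo : MonomialOrder σ}

lemma Loc.tr_mem (h : Loc I u) {n : ℕ} {G : MvPolynomial σ (ZMod p)}
    (hG : G ∈ I (p * n + 1 + (p - 1) * Fintype.card E)) : tr p G ∈ I (n + 1) := by
  obtain ⟨s, hs, hsG⟩ := h.gen _ _ hG
  have hp1 := hp.out.one_lt
  have key : ∀ G ∈ Ideal.span {x | ∃ c : E → ℕ,
      ∑ e, c e = p * n + 1 + (p - 1) * Fintype.card E ∧ x = ∏ e, u e ^ c e},
      ∀ w, tr p (w * G) ∈ I (n + 1) := by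
    intro G hG
    induction hG using Submodule.span_induction with
    | zero => intro w; rw [mul_zero, tr_zero]; exact Ideal.zero_mem _
    | add x y _ _ hx hy => intro w; rw [mul_add, tr_add]; exact Ideal.add_mem _ (hx w) (hy w)
    | smul a x _ hx => intro w; rw [smul_eq_mul, ← mul_assoc]; exact hx _
    | mem x hx =>
      obtain ⟨c, hc, rfl⟩ := hx
      intro w
      have e : w * ∏ e, u e ^ c e = (∏ e, u e ^ (c e / p)) ^ p * (w * ∏ e, u e ^ (c e % p)) := by
        rw [mul_left_comm, ← Finset.prod_pow, ← Finset.prod_mul_distrib]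
        simp only [← pow_mul, ← pow_add, Nat.div_add_mod']
      rw [e, tr_pow_mul]
      refine Ideal.mul_mem_right _ _ (h.filt.mono ?_ (h.filt.prod Finset.univ
        (a := fun e => c e / p * 1) fun e _ => h.filt.pow (h.mem e) _))
      have h1 : ∑ e, c e = p * ∑ e, c e / p * 1 + ∑ e, c e % p := by
        rw [Finset.mul_sum, ← Finset.sum_add_distrib]
        simp only [mul_one, Nat.div_add_mod]
      have h2 : ∑ e, c e % p ≤ (p - 1) * Fintype.card E := by
        rw [mul_comm, ← smul_eq_mul, ← Finset.card_univ]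
        refine Finset.sum_le_card_nsmul _ _ _ fun e _ => ?_
        have := Nat.mod_lt (c e) hp.out.pos
        omega
      by_contra hc'
      have := Nat.mul_le_mul_left p (Nat.le_of_lt_succ (not_le.1 hc'))
      omega
  have := key _ (span_pow_le u _ hsG) (s ^ (p - 1))
  rw [← mul_assoc, ← pow_succ, Nat.sub_add_cancel hp1.le, tr_pow_mul] at this
  exact h.sat _ _ _ hs this

lemma Loc.hom_p (h : Loc I u) (hf : Lead mo I (ones σ) (Fintype.card E)) {a : σ →₀ ℕ} {n : ℕ}
    (ha : Lead mo I (p • a) (p * n + 1)) : Lead mo I a (n + 1) := by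
  obtain ⟨G, hG, hm, hd⟩ := ha.add h.filt (hf.nsmul h.filt (p - 1))
  refine ⟨tr p G, h.tr_mem hG, monic_of mo ?_ fun b hb => ?_⟩
  · rw [coeff_tr, ← hd, hm.coeff_degree]
  · rw [coeff_tr]
    apply mo.coeff_eq_zero_of_lt
    rw [hd, map_add, map_add, map_nsmul, map_nsmul _ p b]
    exact add_lt_add_left (nsmul_lt_nsmul_right hp.out.ne_zero hb) _

lemma Loc.hom (h : Loc I u) (hf : Lead mo I (ones σ) (Fintype.card E)) (k : ℕ) (a : σ →₀ ℕ)
    (n : ℕ) (hk : 0 < k) (ha : Lead mo I (k • a) (k * n + 1)) : Lead mo I a (n + 1) := by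
  have h1 : ∀ e, Lead mo I (p ^ e • a) (p ^ e * n + 1) → Lead mo I a (n + 1) := by
    intro e
    induction e with
    | zero => simp
    | succ e ih =>
      intro he
      rw [pow_succ', mul_nsmul', mul_assoc] at he
      exact ih (h.hom_p hf he)
  set q := p ^ (k * (k * n + 1)) with hq
  have h2 : k * (k * n + 1) ≤ q := (Nat.lt_pow_self hp.out.one_lt).le
  have h3 : k * n + 1 ≤ q / k := (Nat.le_div_iff_mul_le hk).2 (by rwa [mul_comm])
  apply h1 (k * (k * n + 1))
  have h4 := (ha.nsmul h.filt (q / k)).add h.filt (Lead.zero h.filt ((q % k) • a))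
  rw [← mul_nsmul', ← add_nsmul, Nat.div_add_mod'] at h4
  refine h4.mono h.filt ?_
  have h5 := Nat.div_add_mod' q k
  have h6 := Nat.mul_le_mul_right n (Nat.mod_lt q hk).le
  rw [← hq]
  calc q * n + 1 = q / k * k * n + (q % k * n + 1) := by
        conv_lhs => rw [← h5]
        ring
    _ ≤ q / k * k * n + q / k := by omega
    _ = _ := by ring

omit [Fintype σ] in
lemma choose_ne_zero (e j : ℕ) (hj : j < p ^ e) : ((p ^ e - 1).choose j : ZMod p) ≠ 0 := by
  induction j with
  | zero => simp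
  | succ j ih =>
    have h1 : ((p ^ e).choose (j + 1) : ZMod p) = 0 :=
      (ZMod.natCast_eq_zero_iff _ _).2 (hp.out.dvd_choose_pow (by omega) (by omega))
    rw [← Nat.sub_add_cancel (show 1 ≤ p ^ e by omega), Nat.choose_succ_succ, Nat.cast_add] at h1
    intro h0
    rw [h0, add_zero] at h1
    exact ih (by omega) h1

lemma Loc.lip (h : Loc I u) (hf : Lead mo I (ones σ) (Fintype.card E)) (a : σ →₀ ℕ) (i : σ)
    (n : ℕ) (ha : Lead mo I (a + single i 1) (n + 1)) : Lead mo I a n := by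
  classical
  rcases n with _ | n
  · exact Lead.zero h.filt a
  set A := a i + 1 with hA
  set q := p ^ (A * A) with hq
  have h2 : A * A < q := Nat.lt_pow_self hp.out.one_lt
  set k := (q - 1) / A with hk
  set d := (q - 1) % A with hd
  have h3 : A ≤ k := (Nat.le_div_iff_mul_le (by omega)).2 (by omega)
  have h4 : d < A := Nat.mod_lt _ (by omega)
  have h5 : k * A + d = q - 1 := Nat.div_add_mod' _ _
  obtain ⟨G, hG, hm, hdeg⟩ := (ha.nsmul h.filt k).add h.filt (Lead.zero h.filt (single i d))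
  have e : k • (a + single i 1) + single i d = k • a + single i (k + d) := by
    rw [nsmul_add, add_assoc, single_add, smul_single, smul_eq_mul, mul_one]
  rw [e] at hdeg
  have hc : coeff (k • a) ((tay (ZMod p) i G).coeff (k + d)) ≠ 0 := by
    rw [coeff_tay, ← hdeg, hm.coeff_degree, one_mul]
    have : (k • a) i + (k + d) = q - 1 := by
      rw [Finsupp.smul_apply, smul_eq_mul, ← h5, hA]
      ring
    rw [this]
    exact choose_ne_zero _ _ (by omega)
  have hdeg' : mo.degree ((tay (ZMod p) i G).coeff (k + d)) = k • a := by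
    refine degree_eq_of mo hc fun b hb => ?_
    rw [coeff_tay, mo.coeff_eq_zero_of_lt, zero_mul]
    rw [hdeg, map_add, map_add]
    exact add_lt_add_left hb _
  have h6 := Lead.of_ne_zero (mo := mo) (h.tay_mem i hG (k + d)) (fun h0 => hc (by simp [h0]))
  rw [hdeg'] at h6
  refine h.hom hf k a n (by omega) (h6.mono h.filt ?_)
  rw [mul_add, mul_add]
  omega

end trace

end Pool.Agent.MP_e85a6b_ag

end

-- part MP_e85a6b_ag.Chart
section

/-!
A polynomial chart of the space of pairs of matrices adapted to the variety of complexes.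
-/

set_option autoImplicit false

namespace Pool.Agent.MP_e85a6b_ag

open Matrix MvPolynomial

section schur

variable {R α β γ : Type*} [CommRing R] [Fintype α]

/-- a block matrix with prescribed Schur complement -/
def sch (A : Matrix α α R) (a : Matrix α γ R) (c : Matrix β α R) (e : Matrix β γ R) :
    Matrix (α ⊕ β) (α ⊕ γ) R :=
  fromBlocks A (A * a) (c * A) (e + c * A * a)

lemma sch_map {R' : Type*} [CommRing R'] (φ : R →+* R') (A : Matrix α α R) (a : Matrix α γ R)
    (c : Matrix β α R) (e : Matrix β γ R) :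
    (sch A a c e).map φ = sch (A.map φ) (a.map φ) (c.map φ) (e.map φ) := by
  simp only [sch, fromBlocks_map, Matrix.map_mul, Matrix.map_add _ (map_add φ)]

variable [DecidableEq α]

lemma sch_zero (A : Matrix α α R) (a : Matrix α γ R) (c : Matrix β α R) :
    sch A a c 0 = fromRows 1 c * (A * fromCols 1 a) := by
  simp [sch, Matrix.mul_assoc]

lemma sch_inv (M : Matrix (α ⊕ β) (α ⊕ γ) R) (h : IsUnit M.toBlocks₁₁.det) :
    sch M.toBlocks₁₁ (M.toBlocks₁₁⁻¹ * M.toBlocks₁₂) (M.toBlocks₂₁ * M.toBlocks₁₁⁻¹)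
      (M.toBlocks₂₂ - M.toBlocks₂₁ * M.toBlocks₁₁⁻¹ * M.toBlocks₁₂) = M := by
  rw [sch, mul_nonsing_inv_cancel_left _ _ h, nonsing_inv_mul_cancel_right _ _ h,
    ← Matrix.mul_assoc, sub_add_cancel, fromBlocks_toBlocks]

lemma sch_mem (M : Matrix (α ⊕ β) (α ⊕ γ) R) (h : IsUnit M.toBlocks₁₁.det) (J : Ideal R)
    (i : β) (j : γ)
    (hJ : (M.submatrix (Sum.map id fun _ : Unit => i) (Sum.map id fun _ : Unit => j)).det ∈ J) :
    (M.toBlocks₂₂ - M.toBlocks₂₁ * M.toBlocks₁₁⁻¹ * M.toBlocks₁₂) i j ∈ J := by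
  have := invertibleOfIsUnitDet _ h
  have e : M.submatrix (Sum.map id fun _ : Unit => i) (Sum.map id fun _ : Unit => j) =
      fromBlocks M.toBlocks₁₁ (M.toBlocks₁₂.submatrix id fun _ => j)
        (M.toBlocks₂₁.submatrix (fun _ => i) id) (M.toBlocks₂₂.submatrix (fun _ => i) fun _ => j) := by
    ext (a | a) (b | b) <;> rfl
  rw [e, det_fromBlocks₁₁, invOf_eq_nonsing_inv, det_unique (n := Unit)] at hJ
  exact (Ideal.unit_mul_mem_iff_mem J h).1 hJ

end schur

/-- block shapes -/
structure Sh (m t n r s : ℕ) where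
  m' : ℕ
  u : ℕ
  n' : ℕ
  eI : Fin m ≃ Fin r ⊕ Fin m'
  eT : Fin t ≃ Fin r ⊕ (Fin s ⊕ Fin u)
  eL : Fin n ≃ Fin s ⊕ Fin n'

variable {m t n r s : ℕ} (S : Sh m t n r s)

namespace Sh

/-- coordinates along the variety -/
abbrev Par : Type := ((Fin r × Fin r) ⊕ (Fin r × (Fin s ⊕ Fin S.u)) ⊕ (Fin S.m' × Fin r)) ⊕
  ((Fin s × Fin s) ⊕ (Fin s × Fin S.n') ⊕ (Fin S.u × Fin s))

/-- coordinates transversal to the variety -/
abbrev Eps : Type := (Fin S.m' × (Fin s ⊕ Fin S.u)) ⊕ (Fin S.u × Fin S.n') ⊕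
  (Fin r × (Fin s ⊕ Fin S.n'))

variable {R : Type*} [CommRing R]

/-- block of parameters -/
def pA (x : S.Par → R) : Matrix (Fin r) (Fin r) R := of fun i j => x (.inl (.inl (i, j)))
/-- block of parameters -/
def pa (x : S.Par → R) : Matrix (Fin r) (Fin s ⊕ Fin S.u) R :=
  of fun i j => x (.inl (.inr (.inl (i, j))))
/-- block of parameters -/
def pc (x : S.Par → R) : Matrix (Fin S.m') (Fin r) R := of fun i j => x (.inl (.inr (.inr (i, j))))
/-- block of parameters -/
def pB (x : S.Par → R) : Matrix (Fin s) (Fin s) R := of fun i j => x (.inr (.inl (i, j)))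
/-- block of parameters -/
def pd (x : S.Par → R) : Matrix (Fin s) (Fin S.n') R := of fun i j => x (.inr (.inr (.inl (i, j))))
/-- block of parameters -/
def pb (x : S.Par → R) : Matrix (Fin S.u) (Fin s) R := of fun i j => x (.inr (.inr (.inr (i, j))))
/-- block of parameters -/
def e1 (e : S.Eps → R) : Matrix (Fin S.m') (Fin s ⊕ Fin S.u) R := of fun i j => e (.inl (i, j))
/-- block of parameters -/
def e2 (e : S.Eps → R) : Matrix (Fin S.u) (Fin S.n') R := of fun i j => e (.inr (.inl (i, j)))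
/-- block of parameters -/
def e3 (e : S.Eps → R) : Matrix (Fin r) (Fin s ⊕ Fin S.n') R := of fun i j => e (.inr (.inr (i, j)))

/-- the first matrix in block form -/
def bY (x : S.Par → R) (e : S.Eps → R) :
    Matrix (Fin r ⊕ Fin S.m') (Fin r ⊕ (Fin s ⊕ Fin S.u)) R :=
  sch (S.pA x) (S.pa x) (S.pc x) (S.e1 e)
/-- the lower part of the second matrix -/
def bW (x : S.Par → R) (e : S.Eps → R) : Matrix (Fin s ⊕ Fin S.u) (Fin s ⊕ Fin S.n') R :=
  sch (S.pB x) (S.pd x) (S.pb x) (S.e2 e)
/-- the second matrix in block form -/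
def bZ (x : S.Par → R) (e : S.Eps → R) :
    Matrix (Fin r ⊕ (Fin s ⊕ Fin S.u)) (Fin s ⊕ Fin S.n') R :=
  fromRows (S.e3 e - S.pa x * S.bW x e) (S.bW x e)

/-- the first matrix -/
def cY (x : S.Par → R) (e : S.Eps → R) : Matrix (Fin m) (Fin t) R := (S.bY x e).submatrix S.eI S.eT
/-- the second matrix -/
def cZ (x : S.Par → R) (e : S.Eps → R) : Matrix (Fin t) (Fin n) R := (S.bZ x e).submatrix S.eT S.eL

lemma cY_map {R' : Type*} [CommRing R'] (φ : R →+* R') (x : S.Par → R) (e : S.Eps → R) :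
    (S.cY x e).map φ = S.cY (φ ∘ x) (φ ∘ e) := by
  rw [cY, ← submatrix_map, bY, sch_map]
  rfl

lemma cZ_map {R' : Type*} [CommRing R'] (φ : R →+* R') (x : S.Par → R) (e : S.Eps → R) :
    (S.cZ x e).map φ = S.cZ (φ ∘ x) (φ ∘ e) := by
  rw [cZ, ← submatrix_map, bZ, fromRows_map, Matrix.map_sub _ (map_sub φ), Matrix.map_mul, bW,
    sch_map]
  rfl

/-- the product of the two distinguished minors -/
def del (Y : Matrix (Fin m) (Fin t) R) (Z : Matrix (Fin t) (Fin n) R) : R :=
  (Y.submatrix S.eI.symm S.eT.symm).toBlocks₁₁.det *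
    (Z.submatrix S.eT.symm S.eL.symm).toRows₂.toBlocks₁₁.det

lemma map_del {R' : Type*} [CommRing R'] (φ : R →+* R') (Y : Matrix (Fin m) (Fin t) R)
    (Z : Matrix (Fin t) (Fin n) R) : φ (S.del Y Z) = S.del (Y.map φ) (Z.map φ) := by
  rw [del, map_mul, RingHom.map_det, RingHom.map_det]
  rfl

lemma del_chart (x : S.Par → R) (e : S.Eps → R) :
    S.del (S.cY x e) (S.cZ x e) = (S.pA x).det * (S.pB x).det := by
  simp [del, cY, cZ, bY, bZ, bW, sch]

lemma exists_chart (Y : Matrix (Fin m) (Fin t) R) (Z : Matrix (Fin t) (Fin n) R)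
    (h : IsUnit (S.del Y Z)) : ∃ x e, S.cY x e = Y ∧ S.cZ x e = Z ∧
      ∀ k, e k ∈ minors (r + 1) Y + minors (s + 1) Z + minors 1 (Y * Z) := by
  obtain ⟨h1, h2⟩ := IsUnit.mul_iff.1 h
  set Y' := Y.submatrix S.eI.symm S.eT.symm with hY'
  set Z' := Z.submatrix S.eT.symm S.eL.symm with hZ'
  set W := Z'.toRows₂ with hW
  let x : S.Par → R := Sum.elim
    (Sum.elim (fun p => Y'.toBlocks₁₁ p.1 p.2)
      (Sum.elim (fun p => (Y'.toBlocks₁₁⁻¹ * Y'.toBlocks₁₂) p.1 p.2)
        fun p => (Y'.toBlocks₂₁ * Y'.toBlocks₁₁⁻¹) p.1 p.2))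
    (Sum.elim (fun p => W.toBlocks₁₁ p.1 p.2)
      (Sum.elim (fun p => (W.toBlocks₁₁⁻¹ * W.toBlocks₁₂) p.1 p.2)
        fun p => (W.toBlocks₂₁ * W.toBlocks₁₁⁻¹) p.1 p.2))
  let e : S.Eps → R := Sum.elim
    (fun p => (Y'.toBlocks₂₂ - Y'.toBlocks₂₁ * Y'.toBlocks₁₁⁻¹ * Y'.toBlocks₁₂) p.1 p.2)
    (Sum.elim (fun p => (W.toBlocks₂₂ - W.toBlocks₂₁ * W.toBlocks₁₁⁻¹ * W.toBlocks₁₂) p.1 p.2)
      fun p => (Z'.toRows₁ + Y'.toBlocks₁₁⁻¹ * Y'.toBlocks₁₂ * W) p.1 p.2)
  have a1 : S.bY x e = Y' := sch_inv Y' h1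
  have a2 : S.bW x e = W := sch_inv W h2
  have a3 : S.bZ x e = Z' := by
    rw [bZ, a2]
    change fromRows (Z'.toRows₁ + Y'.toBlocks₁₁⁻¹ * Y'.toBlocks₁₂ * W -
      Y'.toBlocks₁₁⁻¹ * Y'.toBlocks₁₂ * W) W = Z'
    rw [add_sub_cancel_right, fromRows_toRows]
  refine ⟨x, e, by simp [cY, a1, hY'], by simp [cZ, a3, hZ'], ?_⟩
  rintro (⟨i, j⟩ | ⟨i, j⟩ | ⟨i, j⟩)
  · refine Ideal.mem_sup_left (Ideal.mem_sup_left (sch_mem Y' h1 _ i j ?_))
    exact det_mem_minors Y (by simp) _ _
  · refine Ideal.mem_sup_left (Ideal.mem_sup_right (sch_mem W h2 _ i j ?_))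
    exact det_mem_minors Z (κ := Fin s ⊕ Unit) (by simp)
      (fun a => S.eT.symm (Sum.inr (Sum.map id (fun _ => i) a)))
      (fun a => S.eL.symm (Sum.map id (fun _ => j) a))
  · refine Ideal.mem_sup_right ?_
    have e : Z'.toRows₁ + Y'.toBlocks₁₁⁻¹ * Y'.toBlocks₁₂ * W =
        Y'.toBlocks₁₁⁻¹ * (Y' * Z').toRows₁ := by
      conv_rhs => rw [← fromBlocks_toBlocks Y', ← fromRows_toRows Z', fromBlocks_mul_fromRows]
      rw [toRows₁_fromRows, fromBlocks_toBlocks, Matrix.mul_add,
        nonsing_inv_mul_cancel_left _ _ h1, Matrix.mul_assoc]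
    change (Z'.toRows₁ + Y'.toBlocks₁₁⁻¹ * Y'.toBlocks₁₂ * W) i j ∈ _
    rw [e, mul_apply]
    refine Ideal.sum_mem _ fun k _ => Ideal.mul_mem_left _ _ ?_
    rw [hY', hZ', submatrix_mul_equiv]
    exact entry_mem_minors (Y * Z) _ _

lemma mix_chart {I : ℕ → Ideal R} (hI : Filt I) (x : S.Par → R) (e : S.Eps → R)
    (he : ∀ k, e k ∈ I 1) (c : ℕ) (ρ : Fin t → Option (Fin m)) (ρ' : Fin t → Option (Fin n)) :
    mix c ρ ρ' (S.cY x e) (S.cZ x e) ∈ I (cnt c ρ + cnt c ρ' -
      min (Fintype.card (Ini t c)) (min (cnt c ρ) r + min (cnt c ρ') s)) := by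
  let N' : Matrix (Fin s ⊕ Fin S.u) (Fin s ⊕ Fin S.u) R := fromBlocks 1 0 (S.pb x) 1
  let M' : Matrix (Fin s ⊕ Fin S.u) (Fin s ⊕ Fin S.u) R := fromBlocks 1 0 (-S.pb x) 1
  have h1 : N' * M' = 1 := by simp [N', M', fromBlocks_multiply]
  have := mix_mem_filt hI c ρ ρ' (S.cY x e) (S.cZ x e)
    ((fromBlocks 1 (-(S.pa x * N')) 0 N').submatrix S.eT id)
    ((fromBlocks 1 (S.pa x) 0 M').submatrix id S.eT)
    (by
      rw [← submatrix_mul _ _ _ _ _ Function.bijective_id, fromBlocks_multiply]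
      simp [Matrix.mul_assoc, h1])
    (Finset.univ.map Function.Embedding.inl)
    (Finset.univ.map (Function.Embedding.inl.trans Function.Embedding.inr))
    (by simp [Finset.disjoint_left])
    (by
      rintro i (b | b) hb
      · simp at hb
      rw [cY, submatrix_mul_equiv, bY, sch, fromBlocks_multiply, submatrix_apply]
      rcases S.eI i with i | i
      · simp [Matrix.mul_assoc]
      · simp only [Matrix.mul_neg, Matrix.add_mul, Matrix.mul_assoc, neg_add_cancel_comm_assoc,
          id, fromBlocks_apply₂₂, mul_apply]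
        exact Ideal.sum_mem _ fun k _ => Ideal.mul_mem_right _ _ (he _))
    (by
      intro l b hb
      rw [cZ, submatrix_mul_equiv, bZ, fromBlocks_mul_fromRows, submatrix_apply]
      rcases b with b | b | b
      · simpa [e3] using he _
      · simp at hb
      · simp only [M', bW, sch, fromBlocks_multiply, id, fromRows_apply_inr]
        rcases S.eL l with l | l
        · simp
        · simpa [Matrix.mul_assoc, e2] using he _)
  simpa using this

end Sh

variable {K : Type*} [Field K] {R : Type*} [CommRing R] [Algebra K R]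

variable (K) in
/-- evaluation at a pair of matrices -/
noncomputable def ev (Y : Matrix (Fin m) (Fin t) R) (Z : Matrix (Fin t) (Fin n) R) :
    PolyRing K m t n →ₐ[K] R :=
  aeval (Sum.elim (fun p => Y p.1 p.2) fun p => Z p.1 p.2)

lemma matY_map_ev (Y : Matrix (Fin m) (Fin t) R) (Z : Matrix (Fin t) (Fin n) R) :
    (matY K m t n).map (ev K Y Z : PolyRing K m t n →+* R) = Y := by
  ext i j
  simp [matY, ev]

lemma matZ_map_ev (Y : Matrix (Fin m) (Fin t) R) (Z : Matrix (Fin t) (Fin n) R) :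
    (matZ K m t n).map (ev K Y Z : PolyRing K m t n →+* R) = Z := by
  ext i j
  simp [matZ, ev]

lemma comp_ev {R' : Type*} [CommRing R'] [Algebra K R'] (φ : R →ₐ[K] R')
    (Y : Matrix (Fin m) (Fin t) R) (Z : Matrix (Fin t) (Fin n) R) (g : PolyRing K m t n) :
    φ (ev K Y Z g) = ev K (Y.map (φ : R →+* R')) (Z.map (φ : R →+* R')) g := by
  rw [← AlgHom.comp_apply]
  congr 1
  ext (v | v) <;> simp [ev]

lemma map_minors {R R' : Type*} [CommRing R] [CommRing R'] (φ : R →+* R') {a b : ℕ} (j : ℕ)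
    (A : Matrix (Fin a) (Fin b) R) : (minors j A).map φ = minors j (A.map φ) := by
  rw [minors, Ideal.map_span, minors]
  congr 1
  ext x
  constructor
  · rintro ⟨_, ⟨f, g, rfl⟩, rfl⟩
    exact ⟨f, g, by rw [RingHom.map_det]; rfl⟩
  · rintro ⟨f, g, rfl⟩
    exact ⟨_, ⟨f, g, rfl⟩, by rw [RingHom.map_det]; rfl⟩

omit [Algebra K R] in
lemma map_complexIdeal (φ : PolyRing K m t n →+* R) : (complexIdeal K m t n r s).map φ =
    minors (r + 1) ((matY K m t n).map φ) + minors (s + 1) ((matZ K m t n).map φ) +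
      minors 1 ((matY K m t n).map φ * (matZ K m t n).map φ) := by
  simp only [complexIdeal, Ideal.add_eq_sup, Ideal.map_sup, map_minors, Matrix.map_mul]

lemma minors_mul_eq_bot {R : Type*} [CommRing R] {a b j : ℕ} {α : Type*} [Fintype α]
    (U : Matrix (Fin a) α R) (V : Matrix α (Fin b) R) (h : Fintype.card α < j) :
    minors j (U * V) = ⊥ := by
  rw [minors, Ideal.span_eq_bot]
  rintro _ ⟨f, g, rfl⟩
  rw [submatrix_mul _ _ _ _ _ Function.bijective_id]
  exact det_mul_eq_zero _ _ (by simpa using h)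

lemma ev_eq_zero (U : Matrix (Fin m) (Fin r) R) (V : Matrix (Fin r) (Fin t) R)
    (V' : Matrix (Fin t) (Fin s) R) (U' : Matrix (Fin s) (Fin n) R) (h : V * V' = 0)
    {g : PolyRing K m t n} (hg : g ∈ complexIdeal K m t n r s) :
    ev K (U * V) (V' * U') g = 0 := by
  have := Ideal.mem_map_of_mem (ev K (U * V) (V' * U') : PolyRing K m t n →+* R) hg
  rw [map_complexIdeal, matY_map_ev, matZ_map_ev, minors_mul_eq_bot _ _ (by simp),
    minors_mul_eq_bot _ _ (by simp), Matrix.mul_assoc, ← Matrix.mul_assoc V, h, Matrix.zero_mul,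
    Matrix.mul_zero, ← Matrix.zero_mul (0 : Matrix Empty (Fin n) R),
    minors_mul_eq_bot _ _ (by simp)] at this
  simpa using this

namespace Sh

/-- generic parameters -/
noncomputable def gx (K : Type*) [CommRing K] (k : S.Par) :
    MvPolynomial S.Eps (MvPolynomial S.Par K) := C (X k)

/-- generic transversal coordinates -/
noncomputable def ge (K : Type*) [CommRing K] (k : S.Eps) :
    MvPolynomial S.Eps (MvPolynomial S.Par K) := X k

/-- the chart with integer coefficients -/
noncomputable def xi : (Fin m × Fin t) ⊕ (Fin t × Fin n) → MvPolynomial S.Eps (MvPolynomial S.Par ℤ) :=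
  Sum.elim (fun p => S.cY (S.gx ℤ) (S.ge ℤ) p.1 p.2) fun p => S.cZ (S.gx ℤ) (S.ge ℤ) p.1 p.2

lemma thet_eq (g : PolyRing K m t n) :
    thet S.xi K g = ev K (S.cY (S.gx K) (S.ge K)) (S.cZ (S.gx K) (S.ge K)) g := by
  have h1 := S.cY_map (map (map (Int.castRingHom K))) (S.gx ℤ) (S.ge ℤ)
  have h2 := S.cZ_map (map (map (Int.castRingHom K))) (S.gx ℤ) (S.ge ℤ)
  have h3 : (map (map (Int.castRingHom K))) ∘ S.gx ℤ = S.gx K := by ext1; simp [gx]
  have h4 : (map (map (Int.castRingHom K))) ∘ S.ge ℤ = S.ge K := by ext1; simp [ge]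
  rw [h3, h4] at h1 h2
  rw [← h1, ← h2, thet, ev]
  refine congrArg (fun f => aeval f g) (funext ?_)
  rintro (v | v) <;> rfl

lemma tower_thet (x : S.Par → R) (e : S.Eps → R) (g : PolyRing K m t n) :
    aevalTower (aeval x : MvPolynomial S.Par K →ₐ[K] R) e (thet S.xi K g) =
      ev K (S.cY x e) (S.cZ x e) g := by
  rw [thet_eq, comp_ev, cY_map, cZ_map]
  simp [Function.comp_def, gx, ge]

lemma ev_zero_of_mem (x : S.Par → R) {g : PolyRing K m t n} (hg : g ∈ ord S.xi K 1) :
    ev K (S.cY x 0) (S.cZ x 0) g = 0 := by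
  rw [← tower_thet, mem_ord_one] at *
  have : ∀ F : MvPolynomial S.Eps (MvPolynomial S.Par K),
      aevalTower (aeval x : MvPolynomial S.Par K →ₐ[K] R) 0 F = aeval x (constantCoeff F) := by
    intro F
    induction F using MvPolynomial.induction_on with
    | C a => simp
    | add p q hp hq => simp [hp, hq]
    | mul_X p n hp => simp
  rw [this, hg, map_zero]

lemma complexIdeal_le : complexIdeal K m t n r s ≤ ord S.xi K 1 := by
  intro g hg
  rw [mem_ord_one]
  have h1 : ∀ F : MvPolynomial S.Eps (MvPolynomial S.Par K), constantCoeff F =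
      aevalTower (aeval X : MvPolynomial S.Par K →ₐ[K] MvPolynomial S.Par K) 0 F := by
    intro F
    induction F using MvPolynomial.induction_on with
    | C a => simp
    | add p q hp hq => simp [hp, hq]
    | mul_X p n hp => simp
  rw [h1, tower_thet]
  set x : S.Par → MvPolynomial S.Par K := X
  let W : Matrix (Fin s ⊕ Fin S.u) (Fin s) (MvPolynomial S.Par K) := fromRows 1 (S.pb x)
  let W1 : Matrix (Fin r ⊕ Fin S.m') (Fin r) (MvPolynomial S.Par K) := fromRows 1 (S.pc x)
  let W2 : Matrix (Fin s) (Fin s ⊕ Fin S.n') (MvPolynomial S.Par K) := fromCols 1 (S.pd x)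
  have := ev_eq_zero (K := K) ((W1 * S.pA x).submatrix S.eI id)
    ((fromCols 1 (S.pa x)).submatrix id S.eT)
    ((fromRows (-(S.pa x * W)) W).submatrix S.eT id)
    ((S.pB x * W2).submatrix id S.eL)
    (by rw [submatrix_mul_equiv, fromCols_mul_fromRows]; simp) hg
  rw [← submatrix_mul _ _ _ _ _ Function.bijective_id,
    ← submatrix_mul _ _ _ _ _ Function.bijective_id, Matrix.mul_assoc, ← sch_zero, fromRows_mul,
    Matrix.neg_mul, Matrix.mul_assoc, ← sch_zero] at this
  convert this using 2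
  rw [cZ, bZ, show S.e3 (0 : S.Eps → MvPolynomial S.Par K) = 0 from rfl, zero_sub]
  rfl

variable (K) in
/-- the distinguished element -/
noncomputable def Del : PolyRing K m t n := S.del (matY K m t n) (matZ K m t n)

lemma ev_Del (Y : Matrix (Fin m) (Fin t) R) (Z : Matrix (Fin t) (Fin n) R) :
    ev K Y Z (S.Del K) = S.del Y Z := by
  have := S.map_del (ev K Y Z : PolyRing K m t n →+* R) (matY K m t n) (matZ K m t n)
  rwa [matY_map_ev, matZ_map_ev] at this

lemma Del_notMem : S.Del K ∉ ord S.xi K 1 := by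
  intro h
  let x : S.Par → K := Sum.elim (Sum.elim (fun p => (1 : Matrix _ _ K) p.1 p.2) 0)
    (Sum.elim (fun p => (1 : Matrix _ _ K) p.1 p.2) 0)
  have := S.ev_zero_of_mem x h
  rw [ev_Del, del_chart, show S.pA x = 1 from rfl, show S.pB x = 1 from rfl] at this
  simp at this

lemma exists_gen : ∃ u : S.Eps → PolyRing K m t n, (∀ k, u k ∈ complexIdeal K m t n r s) ∧
    ∀ D, ∀ g ∈ ord S.xi K D, ∃ j : ℕ, S.Del K ^ j * g ∈ Ideal.span (Set.range u) ^ D := by
  let L := Localization.Away (S.Del K)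
  let φ := algebraMap (PolyRing K m t n) L
  obtain ⟨x, e, h1, h2, h3⟩ := S.exists_chart ((matY K m t n).map φ) ((matZ K m t n).map φ)
    (by rw [← map_del]; exact IsLocalization.Away.algebraMap_isUnit (S.Del K))
  rw [← map_complexIdeal] at h3
  choose w hw using fun k => (IsLocalization.mem_map_algebraMap_iff
    (Submonoid.powers (S.Del K)) L).1 (h3 k)
  refine ⟨fun k => (w k).1, fun k => (w k).1.2, fun D g hg => ?_⟩
  have h4 : aevalTower (aeval x : MvPolynomial S.Par K →ₐ[K] L) e (thet S.xi K g) = φ g := by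
    rw [tower_thet, h1, h2]
    change _ = IsScalarTower.toAlgHom K (PolyRing K m t n) L g
    congr 1
    ext (v | v) <;> simp [ev, matY, matZ, φ]
  have h5 := Ideal.mem_map_of_mem
    (aevalTower (aeval x : MvPolynomial S.Par K →ₐ[K] L) e) (Ideal.mem_comap.1 hg)
  rw [h4, Ideal.map_pow] at h5
  have h6 : (idealOfVars S.Eps (MvPolynomial S.Par K)).map
      (aevalTower (aeval x : MvPolynomial S.Par K →ₐ[K] L) e) ≤
      (Ideal.span (Set.range fun k => ((w k).1 : PolyRing K m t n))).map φ := by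
    rw [idealOfVars, Ideal.map_span, Ideal.span_le]
    rintro _ ⟨_, ⟨k, rfl⟩, rfl⟩
    rw [aevalTower_X, SetLike.mem_coe,
      ← Ideal.mul_unit_mem_iff_mem _ (IsLocalization.map_units L (w k).2), hw k]
    exact Ideal.mem_map_of_mem _ (Ideal.subset_span ⟨k, rfl⟩)
  have h7 := Ideal.pow_right_mono h6 D h5
  rw [← Ideal.map_pow, IsLocalization.algebraMap_mem_map_algebraMap_iff
    (Submonoid.powers (S.Del K))] at h7
  obtain ⟨_, ⟨j, rfl⟩, hj⟩ := h7
  exact ⟨j, hj⟩

lemma exists_loc : ∃ u : S.Eps → PolyRing K m t n, Loc (ord S.xi K) u := by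
  obtain ⟨u, h1, h2⟩ := S.exists_gen (K := K)
  have hs := ord_sat S.xi K
  refine ⟨u, filt_ord _ _, hs, fun e => S.complexIdeal_le (h1 e), fun D g hg => ?_⟩
  obtain ⟨j, hj⟩ := h2 D g hg
  refine ⟨_, ?_, hj⟩
  clear hj
  induction j with
  | zero => simpa using (filt_ord S.xi K).one
  | succ j ih => rw [pow_succ']; exact fun hc => ih (hs _ _ _ S.Del_notMem hc)

lemma exists_pow_mem {D : ℕ} {g : PolyRing K m t n} (hg : g ∈ ord S.xi K D) :
    ∃ j : ℕ, S.Del K ^ j * g ∈ complexIdeal K m t n r s ^ D := by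
  obtain ⟨u, h1, h2⟩ := S.exists_gen (K := K)
  obtain ⟨j, hj⟩ := h2 D g hg
  exact ⟨j, Ideal.pow_right_mono (Ideal.span_le.2 (by rintro _ ⟨k, rfl⟩; exact h1 k)) D hj⟩

lemma mix_mem_ord (c : ℕ) (ρ : Fin t → Option (Fin m)) (ρ' : Fin t → Option (Fin n)) :
    mix c ρ ρ' (matY K m t n) (matZ K m t n) ∈ ord S.xi K (cnt c ρ + cnt c ρ' -
      min (Fintype.card (Ini t c)) (min (cnt c ρ) r + min (cnt c ρ') s)) := by
  rw [ord, Ideal.mem_comap, thet_eq]
  have := map_mix (ev K (S.cY (S.gx K) (S.ge K)) (S.cZ (S.gx K) (S.ge K)) :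
    PolyRing K m t n →+* MvPolynomial S.Eps (MvPolynomial S.Par K)) c ρ ρ'
    (matY K m t n) (matZ K m t n)
  rw [matY_map_ev, matZ_map_ev, RingHom.coe_coe] at this
  rw [this]
  refine S.mix_chart (I := fun D => idealOfVars S.Eps (MvPolynomial S.Par K) ^ D)
    ⟨by simp, fun a b x y hx hy => ?_, fun a => Ideal.pow_le_pow_right a.le_succ, ?_⟩ _ _
    (fun k => ?_) c ρ ρ'
  · rw [pow_add]
    exact Ideal.mul_mem_mul hx hy
  · rw [← C_1, C_mem_pow_idealOfVars_iff]
    simp
  · rw [pow_one]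
    exact Ideal.subset_span ⟨k, rfl⟩

end Sh

end Pool.Agent.MP_e85a6b_ag

end
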