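import Mathlib
import Pool.Agent.MP_e85a6b_ag.Mg.Chart

/-!
The monomial order, and an element of maximal order of vanishing with squarefree leading monomial.
-/

set_option autoImplicit false

namespace Pool.Agent.MP_e85a6b_ag

open MvPolynomial Finsupp MonomialOrder
open scoped MonomialOrder

section general

variable {σ : Type*} [LinearOrder σ] [WellFoundedGT σ] {t : ℕ} {ι : Type*} [LinearOrder ι]

lemma Mono.dec {y : ι → Fin t → σ} (hy : Mono y) (i : ι) {j j' : Fin t} (h : j < j') :
    single (y i j') 1 ≺[degLex] single (y i j) 1 :=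
  degLex_single_lt_iff.2 ((hy _ _ _ _).2 (Or.inr ⟨rfl, h⟩))

lemma Mono.monge {y : ι → Fin t → σ} (hy : Mono y) {i i' : ι} {j j' : Fin t} (hi : i < i')
    (h : j < j') :
    single (y i j') 1 + single (y i' j) 1 ≺[degLex] single (y i j) 1 + single (y i' j') 1 := by
  have h1 := (hy i j i j').2 (Or.inr ⟨rfl, h⟩)
  have h2 := (hy i j i' j).2 (Or.inl hi)
  have h3 := (hy i j i' j').2 (Or.inl hi)
  refine lt_of_lex (by simp) (y i j) (fun w hw => ?_) ?_
  · simp [single_eq_of_ne hw.ne, single_eq_of_ne (hw.trans h1).ne,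
      single_eq_of_ne (hw.trans h2).ne, single_eq_of_ne (hw.trans h3).ne]
  · simp [single_eq_of_ne h1.ne, single_eq_of_ne h2.ne]

lemma sum_le_one {α : Type*} (s : Finset α) (f : α → ℕ) (h1 : ∀ a, f a ≤ 1)
    (h2 : ∀ a b, f a ≠ 0 → f b ≠ 0 → a = b) : ∑ a ∈ s, f a ≤ 1 := by
  by_cases h : ∃ a ∈ s, f a ≠ 0
  · obtain ⟨a, ha, h0⟩ := h
    rw [Finset.sum_eq_single_of_mem a ha fun b _ hb => by_contra fun hc => hb (h2 _ _ hc h0)]
    exact h1 a
  · push Not at h
    rw [Finset.sum_eq_zero h]
    exact Nat.zero_le _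

omit [LinearOrder σ] [WellFoundedGT σ] [LinearOrder ι] in
lemma ex_term {y : ι → Fin t → σ} {ρ : Fin t → Option ι} {j : Fin t} {v : σ}
    (h : ((ρ j).elim 0 fun i => single (y i j) 1 : σ →₀ ℕ) v ≠ 0) :
    ∃ i, ρ j = some i ∧ v = y i j := by
  rcases hi : ρ j with _ | i
  · simp [hi] at h
  · rw [hi, Option.elim_some] at h
    exact ⟨i, rfl, by_contra fun hc => h (single_eq_of_ne hc)⟩

omit [LinearOrder σ] [WellFoundedGT σ] [LinearOrder ι] in
lemma ex_ne_zero {c : ℕ} {y : ι → Fin t → σ} {ρ : Fin t → Option ι} {v : σ}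
    (h : ex c y ρ Subtype.val v ≠ 0) : ∃ i j, ρ j = some i ∧ v = y i j := by
  rw [ex, Finsupp.finsetSum_apply] at h
  obtain ⟨x, -, hx⟩ := Finset.exists_ne_zero_of_sum_ne_zero h
  obtain ⟨i, hi⟩ := ex_term hx
  exact ⟨i, x, hi⟩

omit [LinearOrder σ] [WellFoundedGT σ] [LinearOrder ι] in
lemma ex_le_one {c : ℕ} {y : ι → Fin t → σ} (hy : ∀ i j i' j', y i j = y i' j' → j = j')
    (ρ : Fin t → Option ι) (v : σ) : ex c y ρ Subtype.val v ≤ 1 := by
  classical
  rw [ex, Finsupp.finsetSum_apply]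
  refine sum_le_one _ _ (fun x => ?_) fun a b ha hb => ?_
  · rcases ρ x with _ | i
    · simp
    · rw [Option.elim_some, single_apply]
      split_ifs <;> simp
  · obtain ⟨i, -, h1⟩ := ex_term ha
    obtain ⟨i', -, h2⟩ := ex_term hb
    exact Subtype.ext (hy _ _ _ _ (h1.symm.trans h2))

end general

/-- the variables -/
abbrev Var (m t n : ℕ) : Type := (Fin m × Fin t) ⊕ (Fin t × Fin n)

variable {m t n r s : ℕ}

/-- the variables of the first matrix -/
def vy (n : ℕ) (i : Fin m) (j : Fin t) : Var m t n := Sum.inl (i, j)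
/-- the variables of the second matrix -/
def vz (m : ℕ) (l : Fin n) (j : Fin t) : Var m t n := Sum.inr (j, l)

/-- sorting key -/
def key : Var m t n → ℕ ×ₗ ℕ ×ₗ ℕ :=
  Sum.elim (fun p => toLex (0, toLex (p.1.val, p.2.val))) fun p => toLex (1, toLex (p.2.val, p.1.val))

lemma key_injective : Function.Injective (key : Var m t n → _) := by
  rintro (⟨a, b⟩ | ⟨a, b⟩) (⟨c, d⟩ | ⟨c, d⟩) h <;> simp_all [key, Fin.val_inj]

/-- the order of the variables -/
@[reducible] def ordV (m t n : ℕ) : LinearOrder (Var m t n) := LinearOrder.lift' key key_injective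

lemma mono_vy : @Mono _ (ordV m t n) t _ _ (vy n) := by
  intro i j i' j'
  change key (vy n i j) < key (vy n i' j') ↔ _
  simp [key, vy, Prod.Lex.toLex_lt_toLex, Fin.val_inj]

lemma mono_vz : @Mono _ (ordV m t n) t _ _ (vz m) := by
  intro i j i' j'
  change key (vz m i j) < key (vz m i' j') ↔ _
  simp [key, vz, Prod.Lex.toLex_lt_toLex, Fin.val_inj]

lemma wfV (m t n : ℕ) :
    @WellFoundedGT (Var m t n) (ordV m t n).toPartialOrder.toPreorder.toLT :=
  @Finite.to_wellFoundedGT _ _ (ordV m t n).toPartialOrder.toPreorder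

/-- the monomial order -/
noncomputable def moV (m t n : ℕ) : MonomialOrder (Var m t n) :=
  @degLex _ (ordV m t n) (wfV m t n)

lemma moV_fin (a : Var m t n →₀ ℕ) : {b | b ≺[moV m t n] a}.Finite :=
  @finite_lt _ (ordV m t n) (wfV m t n) _ a

lemma moV_lead (K : Type*) [Field K] (c : ℕ) {ρ : Fin t → Option (Fin m)}
    {ρ' : Fin t → Option (Fin n)} (hρ : Chain ρ) (hρ' : Chain ρ') :
    (moV m t n).Monic (mix c ρ ρ' (matY K m t n) (matZ K m t n)) ∧
    (moV m t n).degree (mix c ρ ρ' (matY K m t n) (matZ K m t n)) =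
      ex c (vy n) ρ Subtype.val + ex c (vz m) ρ' Subtype.val :=
  @lead_mix _ (ordV m t n) (wfV m t n) _ _ _ _ _ K _ _ c _ _ mono_vy mono_vz _ _ hρ hρ'

lemma moV_dec_y (i : Fin m) {j j' : Fin t} (h : j < j') :
    single (vy n i j') 1 ≺[moV m t n] single (vy n i j) 1 :=
  @Mono.dec _ (ordV m t n) (wfV m t n) _ _ _ _ mono_vy i _ _ h

lemma moV_dec_z (i : Fin n) {j j' : Fin t} (h : j < j') :
    single (vz m i j') 1 ≺[moV m t n] single (vz m i j) 1 :=
  @Mono.dec _ (ordV m t n) (wfV m t n) _ _ _ _ mono_vz i _ _ h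

lemma moV_monge_y {i i' : Fin m} {j j' : Fin t} (hi : i < i') (h : j < j') :
    single (vy n i j') 1 + single (vy n i' j) 1 ≺[moV m t n]
      single (vy n i j) 1 + single (vy n i' j') 1 :=
  @Mono.monge _ (ordV m t n) (wfV m t n) _ _ _ _ mono_vy _ _ _ _ hi h

lemma moV_monge_z {i i' : Fin n} {j j' : Fin t} (hi : i < i') (h : j < j') :
    single (vz m i j') 1 + single (vz m i' j) 1 ≺[moV m t n]
      single (vz m i j) 1 + single (vz m i' j') 1 :=
  @Mono.monge _ (ordV m t n) (wfV m t n) _ _ _ _ mono_vz _ _ _ _ hi h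

lemma ex_add_le_one (c : ℕ) (ρ : Fin t → Option (Fin m)) (ρ' : Fin t → Option (Fin n))
    (v : Var m t n) : (ex c (vy n) ρ Subtype.val + ex c (vz m) ρ' Subtype.val) v ≤ 1 := by
  rw [Finsupp.add_apply]
  have h1 := ex_le_one (c := c) (y := vy n) (by simp [vy]) ρ v
  have h2 := ex_le_one (c := c) (y := vz m) (by simp +contextual [vz]) ρ' v
  by_contra hc
  obtain ⟨i, j, -, h3⟩ := ex_ne_zero (c := c) (y := vy n) (ρ := ρ) (v := v) (by omega)
  obtain ⟨i', j', -, h4⟩ := ex_ne_zero (c := c) (y := vz m) (ρ := ρ') (v := v) (by omega)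
  simp [h3, vy, vz] at h4

lemma ex_add_ne_zero {c : ℕ} {ρ : Fin t → Option (Fin m)} {ρ' : Fin t → Option (Fin n)}
    {v : Var m t n} (h : (ex c (vy n) ρ Subtype.val + ex c (vz m) ρ' Subtype.val) v ≠ 0) :
    (∃ i j, ρ j = some i ∧ v = vy n i j) ∨ ∃ i j, ρ' j = some i ∧ v = vz m i j := by
  rw [Finsupp.add_apply] at h
  by_cases h1 : ex c (vy n) ρ Subtype.val v = 0
  · exact Or.inr (ex_ne_zero (c := c) (by omega))
  · exact Or.inl (ex_ne_zero h1)

/-- the `k`-th diagonal -/
def diag (m t k : ℕ) (j : Fin t) : Option (Fin m) :=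
  if h : k ≤ j + m ∧ j < k then some ⟨j + m - k, by omega⟩ else none

lemma diag_eq {k : ℕ} {j : Fin t} {i : Fin m} (h : diag m t k j = some i) : i + k = j + m := by
  unfold diag at h
  split_ifs at h with h1
  cases h
  simp only
  omega

lemma chain_diag (k : ℕ) : Chain (diag m t k) := by
  intro j j' i i' h1 h2 h
  have := diag_eq h1
  have := diag_eq h2
  omega

lemma card_ini_filter (c lo : ℕ) :
    (Finset.univ.filter fun x : Ini t c => lo ≤ x.1.val).card = min c t - lo := by
  rw [← Nat.card_Ico]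
  refine Finset.card_bij (fun x _ => x.1.val) (fun x hx => ?_) (fun a _ b _ h => ?_) fun b hb => ?_
  · have := x.2
    have := x.1.2
    simp only [Finset.mem_filter, Finset.mem_univ, true_and, Finset.mem_Ico] at hx ⊢
    omega
  · exact Subtype.ext (Fin.ext h)
  · rw [Finset.mem_Ico] at hb
    exact ⟨⟨⟨b, by omega⟩, by simp only; omega⟩, by simpa using hb.1, rfl⟩

lemma card_ini (c : ℕ) : Fintype.card (Ini t c) = min c t := by
  simpa using card_ini_filter (t := t) c 0

lemma cnt_diag (k : ℕ) : cnt k (diag m t k) = min k t - (k - m) := by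
  rw [← card_ini_filter, cnt]
  congr 1
  ext x
  have := x.2
  simp only [diag, Finset.mem_filter, Finset.mem_univ, true_and]
  split_ifs with h <;> simp <;> omega

lemma sum_diag (a o N : ℕ) : ∀ b, o + a + b ≤ N →
    ∑ k ∈ Finset.range N, (min (k - o) b - (k - o - a)) = a * b := by
  intro b
  induction b with
  | zero => simp
  | succ b ih =>
    intro h
    have : ∀ k, min (k - o) (b + 1) - (k - o - a) = (min (k - o) b - (k - o - a)) +
        if k ∈ Finset.Ico (o + b + 1) (o + b + 1 + a) then 1 else 0 := by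
      intro k
      simp only [Finset.mem_Ico]
      split_ifs <;> omega
    simp only [this, Finset.sum_add_distrib, ih (by omega)]
    rw [← Finset.card_filter, Finset.filter_mem_eq_inter, Finset.inter_eq_right.2, Nat.card_Ico]
    · rw [mul_add]
      omega
    · intro k hk
      simp only [Finset.mem_Ico, Finset.mem_range] at hk ⊢
      omega

lemma Sh.lead_ones (S : Sh m t n r s) (K : Type*) [Field K] :
    Lead (moV m t n) (ord S.xi K) (ones (Var m t n)) (Fintype.card S.Eps) := by
  have hF := filt_ord S.xi K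
  have hm : m = r + S.m' := by simpa using Fintype.card_congr S.eI
  have ht : t = r + (s + S.u) := by simpa using Fintype.card_congr S.eT
  have hn : n = s + S.n' := by simpa using Fintype.card_congr S.eL
  set N := m + n + t + 1 with hN
  let E : ℕ → Var m t n →₀ ℕ := fun k =>
    ex k (vy n) (diag m t k) Subtype.val + ex k (vz m) (diag n t k) Subtype.val
  let o : ℕ → ℕ := fun k => (min (k - r) (s + S.u) - (k - r - S.m')) +
    (min (k - s) (r + S.u) - (k - s - S.n')) + (min (k - 0) s - (k - 0 - r))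
  have h1 : ∀ k, Lead (moV m t n) (ord S.xi K) (E k) (o k) := by
    intro k
    refine ⟨_, hF.mono ?_ (S.mix_mem_ord k (diag m t k) (diag n t k)),
      moV_lead K k (chain_diag k) (chain_diag k)⟩
    rw [cnt_diag, cnt_diag, card_ini]
    simp only [o]
    omega
  have h2 : ∀ M, Lead (moV m t n) (ord S.xi K) (∑ k ∈ Finset.range M, E k)
      (∑ k ∈ Finset.range M, o k) := by
    intro M
    induction M with
    | zero => simpa using Lead.zero hF 0
    | succ M ih => rw [Finset.sum_range_succ, Finset.sum_range_succ]; exact ih.add hF (h1 M)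
  have h3 : ∑ k ∈ Finset.range N, E k ≤ ones (Var m t n) := by
    intro v
    rw [Finsupp.finsetSum_apply]
    refine sum_le_one _ _ (fun k => ex_add_le_one _ _ _ v) fun a b ha hb => ?_
    rcases ex_add_ne_zero ha with ⟨i, j, h, rfl⟩ | ⟨i, j, h, rfl⟩ <;>
      rcases ex_add_ne_zero hb with ⟨i', j', h', e⟩ | ⟨i', j', h', e⟩
    · simp only [vy, Sum.inl.injEq, Prod.mk.injEq] at e
      have := diag_eq h
      have := diag_eq h'
      omega
    · simp [vy, vz] at e
    · simp [vy, vz] at e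
    · simp only [vz, Sum.inr.injEq, Prod.mk.injEq] at e
      have := diag_eq h
      have := diag_eq h'
      omega
  have h4 := (h2 N).add hF (Lead.zero hF (ones (Var m t n) - ∑ k ∈ Finset.range N, E k))
  rw [add_tsub_cancel_of_le h3] at h4
  refine h4.mono hF (le_of_eq ?_)
  simp only [o, Finset.sum_add_distrib]
  rw [sum_diag _ _ _ _ (by omega), sum_diag _ _ _ _ (by omega), sum_diag _ _ _ _ (by omega)]
  simp only [Fintype.card_sum, Fintype.card_prod, Fintype.card_fin]
  ring

lemma Sh.good (S : Sh m t n r s) (K : Type*) [Field K] : Good (Lead (moV m t n) (ord S.xi K)) := by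
  refine good_of (filt_ord _ _) (fun a i k => ?_) fun k a l hk => ?_
  · refine transfer S.xi _ moV_fin (fun p _ => ?_) K
    obtain ⟨u, hu⟩ := S.exists_loc (K := ZMod p)
    exact hu.lip (S.lead_ones _) a i k
  · refine transfer S.xi _ moV_fin (fun p _ => ?_) K
    obtain ⟨u, hu⟩ := S.exists_loc (K := ZMod p)
    exact hu.hom (S.lead_ones _) k a l hk

end Pool.Agent.MP_e85a6b_ag
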