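import Mathlib
import Pool.Agent.MP_e85a6b_ag.Mg.Chart
import Pool.Agent.MP_e85a6b_ag.Mg.Height

-- part MP_e85a6b_ag.Prime
section

/-!
The ideal of the variety of complexes is the prime ideal given by the chart.
-/

set_option autoImplicit false

namespace Pool.Agent.MP_e85a6b_ag

open Matrix
open scoped MonomialOrder

variable {m t n r s : ℕ}

section deform

variable {K : Type*} [Field K] {R : Type*} [CommRing R] [Algebra K R]

/-- the line through two matrices -/
noncomputable def line {α β : Type*} (A B : Matrix α β R) : Matrix α β (Polynomial R) :=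
  Matrix.of fun i j => Polynomial.C (A i j) + Polynomial.X * Polynomial.C (B i j - A i j)

variable (K) in
/-- evaluation of the parameter -/
noncomputable def evl (x : R) : Polynomial R →ₐ[K] R := (Polynomial.aeval x).restrictScalars K

lemma line_zero {α β : Type*} (A B : Matrix α β R) :
    (line A B).map (evl K (0 : R) : Polynomial R →+* R) = A := by
  ext i j
  simp [line, evl]

lemma line_one {α β : Type*} (A B : Matrix α β R) :
    (line A B).map (evl K (1 : R) : Polynomial R →+* R) = B := by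
  ext i j
  simp [line, evl]

lemma adj_map {R' : Type*} [CommRing R'] (φ : R' →+* R) (N : Matrix (Fin t) (Fin t) R') :
    (adjugate N).map φ = adjugate (N.map φ) := φ.map_adjugate N

lemma Sh.vanish0 [IsDomain R] (S : Sh m t n r s) (M N : Matrix (Fin t) (Fin t) R) (h : M * N = 1)
    (U : Matrix (Fin m) (Fin r) R) (U' : Matrix (Fin s) (Fin n) R) {g : PolyRing K m t n}
    (hg : g ∈ ord S.xi K 1) :
    ev K (U * M.submatrix (S.eT.symm ∘ .inl) id)
      (N.submatrix id (S.eT.symm ∘ .inr ∘ .inl) * U') g = 0 := by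
  obtain ⟨j, hj⟩ := S.exists_pow_mem hg
  rw [pow_one] at hj
  let U1 : Matrix (Fin m) (Fin r) R := (fromRows (1 : Matrix (Fin r) (Fin r) R) 0).submatrix S.eI id
  let U2 : Matrix (Fin s) (Fin n) R := (fromCols (1 : Matrix (Fin s) (Fin s) R) 0).submatrix id S.eL
  have h1 := ev_eq_zero (K := K) (line (M.det • U) U1)
    ((adjugate (line N 1)).submatrix (S.eT.symm ∘ .inl) id)
    ((line N 1).submatrix id (S.eT.symm ∘ .inr ∘ .inl)) (line U' U2)
    (by
      rw [← submatrix_mul _ _ _ _ _ Function.bijective_id, adjugate_mul]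
      ext a b
      simp [one_apply]) hj
  rw [map_mul, map_pow, mul_eq_zero] at h1
  rcases h1 with h1 | h1
  · exfalso
    have h2 := congrArg (evl K (1 : R)) (pow_eq_zero_iff'.1 h1).1
    rw [comp_ev, Matrix.map_mul, Matrix.map_mul, ← submatrix_map, ← submatrix_map, adj_map,
      line_one, line_one, line_one, adjugate_one, S.ev_Del, Sh.del] at h2
    have e1 : ((U1 * (1 : Matrix (Fin t) (Fin t) R).submatrix (S.eT.symm ∘ .inl) id).submatrix
        S.eI.symm S.eT.symm).toBlocks₁₁ = 1 := by
      ext a b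
      simp [toBlocks₁₁, U1, mul_apply, one_apply]
    have e2 : (((1 : Matrix (Fin t) (Fin t) R).submatrix id (S.eT.symm ∘ .inr ∘ .inl) * U2).submatrix
        S.eT.symm S.eL.symm).toRows₂.toBlocks₁₁ = 1 := by
      ext a b
      simp [toBlocks₁₁, U2, mul_apply, one_apply]
    rw [e1, e2] at h2
    simp at h2
  · have h2 := congrArg (evl K (0 : R)) h1
    rw [comp_ev, Matrix.map_mul, Matrix.map_mul, ← submatrix_map, ← submatrix_map, adj_map,
      line_zero, line_zero, line_zero, map_zero, Matrix.smul_mul, ← Matrix.mul_smul] at h2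
    have e : M.det • adjugate N = M := by
      have h3 : M.det * N.det = 1 := by rw [← det_mul, h, det_one]
      calc M.det • adjugate N = M.det • (M * N * adjugate N) := by rw [h, Matrix.one_mul]
        _ = M := by
          rw [Matrix.mul_assoc, mul_adjugate, Matrix.mul_smul, Matrix.mul_one, smul_smul, h3,
            one_smul]
    have e' : M.det • (adjugate N).submatrix (S.eT.symm ∘ (.inl : Fin r → _)) id =
        (M.det • adjugate N).submatrix (S.eT.symm ∘ .inl) id := rfl
    rwa [e', e] at h2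

lemma Sh.vanish [IsDomain R] (S : Sh m t n r s) (M N : Matrix (Fin t) (Fin t) R) (h : M * N = 1)
    (U : Matrix (Fin m) (Fin r) R) (U' : Matrix (Fin s) (Fin n) R)
    (piv : Fin r ⊕ Fin s → Fin t) (hpiv : Function.Injective piv) {g : PolyRing K m t n}
    (hg : g ∈ ord S.xi K 1) :
    ev K (U * M.submatrix (piv ∘ .inl) id) (N.submatrix id (piv ∘ .inr) * U') g = 0 := by
  obtain ⟨π, hπ⟩ := Equiv.Perm.exists_extending_pair (S.eT.symm ∘ Sum.map id Sum.inl) piv
    (S.eT.symm.injective.comp (Function.injective_id.sumMap Sum.inl_injective)) hpiv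
  have := S.vanish0 (M.submatrix π id) (N.submatrix id π)
    (by rw [← submatrix_mul _ _ _ _ _ Function.bijective_id, h, submatrix_one_equiv]) U U' hg
  rw [submatrix_submatrix, submatrix_submatrix] at this
  rwa [show π ∘ S.eT.symm ∘ Sum.inl = piv ∘ .inl from funext fun a => hπ (.inl a),
    show π ∘ S.eT.symm ∘ Sum.inr ∘ Sum.inl = piv ∘ .inr from funext fun a => hπ (.inr a)] at this

end deform

lemma exists_piv (a b : ℕ → ℕ) (ha : Monotone a) (hb : Monotone b) (h : ∀ c ≤ t, a c + b c ≤ c)
    (hrs : r + s ≤ t) : ∃ piv : Fin r ⊕ Fin s → Fin t, Function.Injective piv ∧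
      (∀ i, a (piv (.inl i)) ≤ i) ∧ ∀ i, b (piv (.inr i)) ≤ i := by
  classical
  let T : Fin r ⊕ Fin s → Finset (Fin t) := Sum.elim
    (fun i => Finset.univ.filter fun k => a k ≤ i) fun i => Finset.univ.filter fun k => b k ≤ i
  obtain ⟨f, hf, hT⟩ := (Finset.all_card_le_biUnion_card_iff_exists_injective T).1 (fun A => by
    rcases Nat.eq_zero_or_pos A.card with h0 | h0
    · omega
    have h1 : A.card ≤ r + s := by simpa using Finset.card_le_univ A
    have h2 : ∃ x ∈ A, (⟨A.card - 1, by omega⟩ : Fin t) ∈ T x := by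
      by_contra hc
      push Not at hc
      have := Finset.card_le_card_of_injOn (s := A)
        (t := Finset.range (a (A.card - 1) + b (A.card - 1)))
        (Sum.elim Fin.val fun i => a (A.card - 1) + i.val)
        (by
          rintro (x | x) hx <;> have := hc _ hx <;> simp [T] at this ⊢ <;> omega)
        (by
          rintro (x | x) hx (y | y) hy e <;> have q1 := hc _ hx <;> have q2 := hc _ hy <;>
            simp [T, Fin.ext_iff] at q1 q2 e ⊢ <;> omega)
      have := h (A.card - 1) (by omega)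
      simp only [Finset.card_range] at *
      omega
    obtain ⟨x, hx, hx2⟩ := h2
    have h3 : Finset.Iic (⟨A.card - 1, by omega⟩ : Fin t) ⊆ A.biUnion T := by
      intro k hk
      refine Finset.mem_biUnion.2 ⟨x, hx, ?_⟩
      have hk' : k.val ≤ A.card - 1 := Fin.le_def.1 (Finset.mem_Iic.1 hk)
      rcases x with x | x
      · simp only [T, Sum.elim_inl, Finset.mem_filter, Finset.mem_univ, true_and] at hx2 ⊢
        exact (ha hk').trans hx2
      · simp only [T, Sum.elim_inr, Finset.mem_filter, Finset.mem_univ, true_and] at hx2 ⊢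
        exact (hb hk').trans hx2
    have := Finset.card_le_card h3
    rw [Fin.card_Iic] at this
    simp only at this
    omega)
  exact ⟨f, hf, fun i => by simpa [T] using hT (.inl i), fun i => by simpa [T] using hT (.inr i)⟩

section levels

variable (F : Fin m → Fin t → Prop)

/-- chains inside `F` using rows below a bound -/
def In (b : ℕ) (ρ : Fin t → Option (Fin m)) : Prop :=
  Chain ρ ∧ ∀ j i, ρ j = some i → F i j ∧ i.val < b

open Classical in
/-- the longest chain inside `F` using rows `< b` and columns `< c` -/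
noncomputable def lam (b c : ℕ) : ℕ := (Finset.univ.filter (In F b)).sup (cnt c)

lemma le_lam {b : ℕ} (c : ℕ) {ρ : Fin t → Option (Fin m)} (h : In F b ρ) : cnt c ρ ≤ lam F b c :=
  Finset.le_sup (f := cnt c) (by simpa using h)

lemma exists_lam (b c : ℕ) : ∃ ρ, In F b ρ ∧ lam F b c = cnt c ρ := by
  classical
  obtain ⟨ρ, h1, h2⟩ := Finset.exists_mem_eq_sup (Finset.univ.filter (In F b))
    ⟨fun _ => none, by simp [In, Chain]⟩ (cnt c)
  exact ⟨ρ, by simpa using h1, by unfold lam; convert h2⟩

lemma cnt_eq {ι : Type*} (c : ℕ) (ρ : Fin t → Option ι) :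
    cnt c ρ = (Finset.univ.filter fun j : Fin t => j.val < c ∧ (ρ j).isSome).card := by
  refine Finset.card_bij (fun x _ => x.1) (fun x hx => ?_) (fun a _ b _ h => Subtype.ext h)
    fun b hb => ?_
  · simpa [x.2] using hx
  · simp only [Finset.mem_filter, Finset.mem_univ, true_and] at hb
    exact ⟨⟨b, hb.1⟩, by simpa using hb.2, rfl⟩

lemma lam_mono (b : ℕ) : Monotone (lam F b) := by
  intro c c' h
  obtain ⟨ρ, h1, h2⟩ := exists_lam F b c
  refine h2.le.trans (le_trans ?_ (le_lam F c' h1))
  rw [cnt_eq, cnt_eq]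
  refine Finset.card_le_card fun j hj => ?_
  simp only [Finset.mem_filter, Finset.mem_univ, true_and] at hj ⊢
  exact ⟨by omega, hj.2⟩

lemma lam_lt {i : Fin m} {j : Fin t} (h : F i j) {b c : ℕ} (hb : i.val < b) (hc : j.val < c) :
    lam F i j < lam F b c := by
  obtain ⟨ρ, h1, h2⟩ := exists_lam F i j
  let ρ' : Fin t → Option (Fin m) := fun k => if k < j then ρ k else if k = j then some i else none
  have h3 : ∀ k i', ρ' k = some i' → (k < j ∧ ρ k = some i') ∨ (k = j ∧ i' = i) := by
    intro k i' hk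
    simp only [ρ'] at hk
    split_ifs at hk with a1 a2
    · exact Or.inl ⟨a1, hk⟩
    · exact Or.inr ⟨a2, (Option.some.inj hk).symm⟩
  have h4 : In F b ρ' := by
    refine ⟨fun k k' a a' e e' hk => ?_, fun k a e => ?_⟩
    · rcases h3 _ _ e with ⟨a1, a2⟩ | ⟨rfl, rfl⟩ <;> rcases h3 _ _ e' with ⟨b1, b2⟩ | ⟨rfl, rfl⟩
      · exact h1.1 _ _ _ _ a2 b2 hk
      · exact (h1.2 _ _ a2).2
      · exact absurd hk b1.not_gt
      · exact absurd hk (lt_irrefl _)
    · rcases h3 _ _ e with ⟨-, a2⟩ | ⟨rfl, rfl⟩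
      · exact ⟨(h1.2 _ _ a2).1, (h1.2 _ _ a2).2.trans hb⟩
      · exact ⟨h, hb⟩
  refine h2.trans_lt (lt_of_lt_of_le ?_ (le_lam F c h4))
  rw [cnt_eq, cnt_eq]
  refine Finset.card_lt_card ⟨fun k hk => ?_, fun hs => ?_⟩
  · simp only [Finset.mem_filter, Finset.mem_univ, true_and] at hk ⊢
    exact ⟨by omega, by simp only [ρ', if_pos (show k < j from hk.1), hk.2]⟩
  · have := @hs j (by simp [ρ', hc])
    simp at this

end levels

lemma minors_succ_le {R : Type*} [CommRing R] {a b : ℕ} (j : ℕ) (A : Matrix (Fin a) (Fin b) R) :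
    minors (j + 1) A ≤ minors j A := by
  refine Ideal.span_le.2 ?_
  rintro _ ⟨f, g, rfl⟩
  rw [det_succ_row_zero]
  refine Ideal.sum_mem _ fun k _ => Ideal.mul_mem_left _ _ ?_
  rw [submatrix_submatrix]
  exact det_mem_minors A (by simp) _ _

lemma minors_anti {R : Type*} [CommRing R] {a b : ℕ} (A : Matrix (Fin a) (Fin b) R) {j k : ℕ}
    (h : j ≤ k) : minors k A ≤ minors j A :=
  antitone_nat_of_succ_le (f := fun j => minors j A) (fun j => minors_succ_le j A) h

lemma exists_weight {σ : Type*} (mo : MonomialOrder σ) :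
    ∃ W : (σ →₀ ℕ) →+ Algebra.GrothendieckAddGroup mo.syn, ∀ a b, a ≺[mo] b → W a < W b :=
  ⟨(Algebra.GrothendieckAddGroup.of).comp mo.toSyn.toAddMonoidHom, fun _ _ h =>
    (AddLocalization.mkOrderEmbedding (s := ⊤) 0).strictMono h⟩

lemma Sh.ord_le (S : Sh m t n r s) (hm : 0 < m) (hn : 0 < n) (K : Type*) [Field K] :
    ord S.xi K 1 ≤ complexIdeal K m t n r s := by
  have ht : t = r + (s + S.u) := by simpa using Fintype.card_congr S.eT
  refine le_of_degree (moV m t n) S.complexIdeal_le fun g hg h0 => ?_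
  by_contra hc
  set a := (moV m t n).degree g with ha
  let F : Fin m → Fin t → Prop := fun i j => a (vy n i j) ≠ 0
  let F' : Fin n → Fin t → Prop := fun i j => a (vz m i j) ≠ 0
  have key : ∀ c ρ ρ', In F m ρ → In F' n ρ' →
      mix c ρ ρ' (matY K m t n) (matZ K m t n) ∉ complexIdeal K m t n r s := by
    intro c ρ ρ' h1 h2 h3
    obtain ⟨h4, h5⟩ := moV_lead K c h1.1 h2.1
    refine hc ⟨_, h3, h4, fun v => ?_⟩
    rw [h5]
    by_cases h6 : (ex c (vy n) ρ Subtype.val + ex c (vz m) ρ' Subtype.val) v = 0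
    · rw [h6]
      exact Nat.zero_le _
    refine (ex_add_le_one c ρ ρ' v).trans (Nat.one_le_iff_ne_zero.2 ?_)
    rcases ex_add_ne_zero h6 with ⟨i, j, h, rfl⟩ | ⟨i, j, h, rfl⟩
    · exact (h1.2 _ _ h).1
    · exact (h2.2 _ _ h).1
  have k1 : lam F m t ≤ r := by
    by_contra h
    obtain ⟨ρ, h1, h2⟩ := exists_lam F m t
    exact key t ρ (fun _ => none) h1 (by simp [In, Chain]) (Ideal.mem_sup_left (Ideal.mem_sup_left
      (minors_anti _ (by omega) (mix_mem_minors t ρ _ _))))
  have k2 : lam F' n t ≤ s := by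
    by_contra h
    obtain ⟨ρ, h1, h2⟩ := exists_lam F' n t
    refine key t (fun _ => none) ρ (by simp [In, Chain]) h1 (Ideal.mem_sup_left (Ideal.mem_sup_right
      (minors_anti _ (show s + 1 ≤ cnt t ρ by omega) (minors_transpose _ ?_))))
    rw [mix_symm]
    exact mix_mem_minors t ρ _ _
  have k3 : ∀ c ≤ t, lam F m c + lam F' n c ≤ c := by
    intro c hct
    by_contra h
    obtain ⟨ρ, h1, h2⟩ := exists_lam F m c
    obtain ⟨ρ', h3, h4⟩ := exists_lam F' n c
    refine key c ρ ρ' h1 h3 (Ideal.mem_sup_right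
      (mix_mem_of_lt c ρ ρ' _ _ _ (entry_mem_minors _) ?_))
    rw [card_ini]
    omega
  obtain ⟨piv, hpiv, p1, p2⟩ := exists_piv (r := r) (s := s) _ _ (lam_mono F m) (lam_mono F' n) k3
    (by omega)
  obtain ⟨W, hW⟩ := exists_weight (moV m t n)
  obtain ⟨M, N, U, U', e, b1, b2, b3, b4⟩ := exists_point (K := K) hm hn
    (fun i j => W (Finsupp.single (vy n i j) 1)) (fun i _ _ h => hW _ _ (moV_dec_y i h))
    (fun _ _ _ _ h h' => by simpa only [map_add] using (hW _ _ (moV_monge_y h h')).le)
    (fun k i j => F i j ∧ lam F i j = k)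
    (fun k i j i' j' h h' hi => not_lt.1 fun hj => by
      have := lam_lt F h.1 (b := i') (c := j') hi hj
      omega)
    (fun i j => W (Finsupp.single (vz m i j) 1)) (fun i _ _ h => hW _ _ (moV_dec_z i h))
    (fun _ _ _ _ h h' => by simpa only [map_add] using (hW _ _ (moV_monge_z h h')).le)
    (fun k i j => F' i j ∧ lam F' i j = k)
    (fun k i j i' j' h h' hi => not_lt.1 fun hj => by
      have := lam_lt F' h.1 (b := i') (c := j') hi hj
      omega)
    piv hpiv
    (fun k i j h => not_lt.1 fun hj => by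
      have := lam_lt F h.1 (b := m) (c := piv (.inl k)) i.2 hj
      have := p1 k
      omega)
    (fun k i j h => not_lt.1 fun hj => by
      have := lam_lt F' h.1 (b := n) (c := piv (.inr k)) i.2 hj
      have := p2 k
      omega)
  refine aeval_ne_zero (moV m t n) W hW _ ?_ h0 ?_ (S.vanish M N e U U' piv hpiv hg)
  · rintro (⟨i, j⟩ | ⟨j, i⟩)
    · exact b1 i j
    · exact b3 i j
  · rintro (⟨i, j⟩ | ⟨j, i⟩) h
    · exact b2 ⟨lam F i j, (lam_lt F h i.2 j.2).trans_le k1⟩ i j ⟨h, rfl⟩
    · exact b4 ⟨lam F' i j, (lam_lt F' h i.2 j.2).trans_le k2⟩ i j ⟨h, rfl⟩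

end Pool.Agent.MP_e85a6b_ag

end

-- part MP_e85a6b_ag.Main
section

/-!
Primality and Noetherianity of the symbolic Rees algebra.
-/

set_option autoImplicit false

namespace Pool.Agent.MP_e85a6b_ag

variable {m t n r s : ℕ}

lemma mem_symbolicPower {R : Type*} [CommRing R] {P : Ideal R} (hP : P.IsPrime) (k : ℕ) (g : R) :
    g ∈ symbolicPower P hP k ↔ ∃ x ∉ P, x * g ∈ P ^ k := by
  rw [symbolicPower, Ideal.mem_comap,
    IsLocalization.algebraMap_mem_map_algebraMap_iff P.primeCompl]
  rfl

lemma main_of_sh (S : Sh m t n r s) (hm : 0 < m) (hn : 0 < n) (K : Type*) [Field K] :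
    ∃ hP : (complexIdeal K m t n r s).IsPrime,
      IsNoetherianRing (symbolicRees (complexIdeal K m t n r s) hP) := by
  have e : complexIdeal K m t n r s = ord S.xi K 1 :=
    le_antisymm S.complexIdeal_le (S.ord_le hm hn K)
  have hF := filt_ord S.xi K
  obtain ⟨u, hu⟩ := S.exists_loc (K := K)
  have hP : (complexIdeal K m t n r s).IsPrime := by
    rw [e]
    refine ⟨(Ideal.ne_top_iff_one _).2 hF.one, fun {x y} h => ?_⟩
    by_cases hx : x ∈ ord S.xi K 1
    · exact Or.inl hx
    · exact Or.inr (hu.sat _ _ _ hx h)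
  refine ⟨hP, noetherian_of_good hF (S.good K) _ fun f => forall_congr' fun k => ?_⟩
  rw [mem_symbolicPower]
  constructor
  · rintro ⟨x, hx, h⟩
    rw [e] at hx h
    exact hu.sat _ _ _ hx (hF.pow_le k h)
  · intro h
    obtain ⟨j, hj⟩ := S.exists_pow_mem h
    exact ⟨_, e ▸ hu.pow_notMem S.Del_notMem j, hj⟩

lemma nonempty_sh (hr : r ≤ m) (hs : s ≤ n) (h : r + s ≤ t) : Nonempty (Sh m t n r s) :=
  ⟨⟨m - r, t - r - s, n - s, Fintype.equivOfCardEq (by simp; omega),
    Fintype.equivOfCardEq (by simp; omega), Fintype.equivOfCardEq (by simp; omega)⟩⟩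

lemma complexIdeal_min (K : Type*) [Field K] :
    complexIdeal K m t n r s = complexIdeal K m t n (min r m) (min s n) := by
  unfold complexIdeal
  congr 2
  · rcases le_total r m with h | h
    · rw [min_eq_left h]
    · rw [min_eq_right h, minors_eq_bot _ (Or.inl (by omega)), minors_eq_bot _ (Or.inl (by omega))]
  · rcases le_total s n with h | h
    · rw [min_eq_left h]
    · rw [min_eq_right h, minors_eq_bot _ (Or.inr (by omega)), minors_eq_bot _ (Or.inr (by omega))]

lemma main (K : Type*) [Field K] (hm : 0 < m) (hn : 0 < n) (h : r + s ≤ t) :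
    ∃ hP : (complexIdeal K m t n r s).IsPrime,
      IsNoetherianRing (symbolicRees (complexIdeal K m t n r s) hP) := by
  rw [complexIdeal_min]
  obtain ⟨S⟩ := nonempty_sh (m := m) (t := t) (n := n) (min_le_right r m) (min_le_right s n)
    (by omega)
  exact main_of_sh S hm hn K

end Pool.Agent.MP_e85a6b_ag

end
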